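import Pool.Agent.NH5.GC.Cnt

/-!
# The asymptotics, I: sums over primes
-/

set_option autoImplicit false

open scoped Classical

namespace Pool.Agent.NH5.GC

open Finset
open Pool.Agent.NH5.ABN (PP mem_PP mer_res)

/-- a whole number near an exponential -/
theorem fl {s : ℝ} (hs : 2 ≤ s) : 3 ≤ ⌊Real.exp s⌋₊ ∧ s / 2 ≤ Real.log (⌊Real.exp s⌋₊ : ℝ) ∧
    Real.log (⌊Real.exp s⌋₊ : ℝ) ≤ s := by
  have h1 : Real.exp 2 ≤ Real.exp s := Real.exp_le_exp.2 hs
  have h2 : (3 : ℝ) ≤ Real.exp 2 := by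
    have := Real.add_one_le_exp (2 : ℝ)
    linarith
  have h3 : 3 ≤ ⌊Real.exp s⌋₊ := Nat.le_floor (by push_cast; linarith)
  have h4 : (0 : ℝ) < (⌊Real.exp s⌋₊ : ℝ) := by
    have : 0 < ⌊Real.exp s⌋₊ := by omega
    exact_mod_cast this
  refine ⟨h3, ?_, ?_⟩
  · rw [Real.le_log_iff_exp_le h4]
    have h5 : Real.exp s < (⌊Real.exp s⌋₊ : ℝ) + 1 := Nat.lt_floor_add_one _
    have h6 : Real.exp s = Real.exp (s / 2) * Real.exp (s / 2) := by
      rw [← Real.exp_add]; congr 1; ring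
    have h7 : 2 ≤ Real.exp (s / 2) := by
      have := Real.add_one_le_exp (s / 2)
      linarith
    nlinarith
  · rw [Real.log_le_iff_le_exp h4]
    exact Nat.floor_le (Real.exp_pos _).le

/-- Mertens' theorem in an interval -/
theorem mer_int (R : Finset ℕ) (hR : ∀ a ∈ R, Nat.Coprime a 56 ∧ a < 56) (c : ℕ → Prop)
    (hc : ∀ p, c p ↔ p % 56 ∈ R) : ∃ C : ℝ, 0 ≤ C ∧ ∀ a b : ℕ, 3 ≤ a → a ≤ b →
    (R.card : ℝ) / 24 * (Real.log (Real.log b) - Real.log (Real.log a)) - C ≤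
      ∑ p ∈ PI c a b, 1 / (p : ℝ) ∧
    ∑ p ∈ PI c a b, 1 / (p : ℝ) ≤
      (R.card : ℝ) / 24 * (Real.log (Real.log b) - Real.log (Real.log a)) + C := by
  obtain ⟨C, hC0, hC⟩ := mer_res R hR (fun p => p.Prime ∧ c p) (by
    intro p
    rw [hc p])
  refine ⟨2 * C, by linarith, ?_⟩
  intro a b ha hab
  have h1 := abs_le.1 (hC a ha)
  have h2 := abs_le.1 (hC b (ha.trans hab))
  have h3 : ∑ p ∈ PP (fun p => p.Prime ∧ c p) b, (1 : ℝ) / p =
      ∑ p ∈ PP (fun p => p.Prime ∧ c p) a, (1 : ℝ) / p + ∑ p ∈ PI c a b, (1 : ℝ) / p := by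
    rw [← Finset.sum_union]
    · refine Finset.sum_congr ?_ fun _ _ => rfl
      ext p
      rw [mem_union, mem_PP, mem_PP, mem_PI]
      constructor
      · rintro ⟨h3, h4, h5⟩
        by_cases h : p ≤ a
        · exact Or.inl ⟨h, h4, h5⟩
        · exact Or.inr ⟨h3, not_le.1 h, h4, h5⟩
      · rintro (⟨h3, h4⟩ | ⟨h3, h4, h5⟩)
        · exact ⟨h3.trans hab, h4⟩
        · exact ⟨h3, h5⟩
    · rw [Finset.disjoint_left]
      intro p hp hp'
      rw [mem_PP] at hp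
      rw [mem_PI] at hp'
      omega
  rw [h3] at h2
  constructor
  · linarith
  · linarith

/-- the lower bound in an interval -/
theorem int_low {r C s t : ℝ} {a b : ℕ} {S : ℝ} (hr : 0 ≤ r) (hs : 0 < s) (ht : 0 < t)
    (ha : Real.log a ≤ s) (ha0 : 3 ≤ a) (hb : t ≤ Real.log b)
    (h : r * (Real.log (Real.log b) - Real.log (Real.log a)) - C ≤ S) :
    r * (Real.log t - Real.log s) - C ≤ S := by
  have h0 : 0 < Real.log a := Real.log_pos (by
    have : (3 : ℝ) ≤ a := by exact_mod_cast ha0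
    linarith)
  have h1 : Real.log (Real.log a) ≤ Real.log s := Real.log_le_log h0 ha
  have h2 : Real.log t ≤ Real.log (Real.log b) := Real.log_le_log ht hb
  have h3 : r * (Real.log t - Real.log s) ≤
      r * (Real.log (Real.log b) - Real.log (Real.log a)) :=
    mul_le_mul_of_nonneg_left (by linarith) hr
  linarith

theorem loglog_nonneg {a : ℕ} (ha0 : 3 ≤ a) : 0 ≤ Real.log (Real.log a) := by
  apply Real.log_nonneg
  rw [Real.le_log_iff_exp_le (by
    have : (3 : ℝ) ≤ a := by exact_mod_cast ha0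
    linarith)]
  have h1 := Real.exp_one_lt_d9
  have : (3 : ℝ) ≤ a := by exact_mod_cast ha0
  linarith

end Pool.Agent.NH5.GC
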