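import Pool.Agent.NH5.GC.Asy

/-!
# The asymptotics, II: the sum over the balanced sets
-/

set_option autoImplicit false

open scoped Classical

namespace Pool.Agent.NH5.GC

open Finset Filter

theorem tyA_iff (p : ℕ) : tyA p ↔ p % 56 ∈ ({17, 33, 41} : Finset ℕ) := by
  unfold tyA
  simp only [mem_insert, mem_singleton]
  omega

theorem tyB_iff (p : ℕ) : tyB p ↔ p % 56 ∈ ({11, 43, 51} : Finset ℕ) := by
  unfold tyB
  simp only [mem_insert, mem_singleton]
  omega

theorem tySI_iff (p : ℕ) : (tyS p ∨ tyI p) ↔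
    p % 56 ∈ ({1, 9, 25, 3, 19, 27, 5, 13, 45} : Finset ℕ) := by
  unfold tyS tyI
  simp only [mem_insert, mem_singleton]
  omega

theorem ev_pow (n : ℕ) (c : ℝ) : ∀ᶠ L : ℝ in atTop, c * L ^ n ≤ Real.exp L := by
  have h := Real.tendsto_pow_mul_exp_neg_atTop_nhds_zero n
  have h1 : Tendsto (fun L : ℝ => c * (L ^ n * Real.exp (-L))) atTop (nhds (c * 0)) :=
    h.const_mul c
  rw [mul_zero] at h1
  filter_upwards [h1.eventually (gt_mem_nhds (show (0 : ℝ) < 1 by norm_num))] with L hL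
  have h2 : c * (L ^ n * Real.exp (-L)) * Real.exp L = c * L ^ n := by
    rw [mul_assoc, mul_assoc, ← Real.exp_add]
    simp
  have h3 := mul_le_mul_of_nonneg_right hL.le (Real.exp_pos L).le
  rw [h2, one_mul] at h3
  exact h3

theorem ev_log (ε : ℝ) (hε : 0 < ε) : ∀ᶠ L : ℝ in atTop, Real.log L ≤ ε * L := by
  have h := Real.isLittleO_log_id_atTop.bound hε
  filter_upwards [h, eventually_ge_atTop (1 : ℝ)] with L hL hL1
  simp only [Real.norm_eq_abs, id] at hL
  rw [abs_of_nonneg (show (0 : ℝ) ≤ L by linarith)] at hL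
  exact (le_abs_self _).trans hL

theorem TF_asy : ∃ (c : ℝ), 0 < c ∧ ∀ᶠ L : ℝ in atTop, ∀ (lam : ℝ) (z y M : ℕ),
    M = ⌈L⌉₊ → z = ⌊Real.exp (L ^ 3)⌋₊ → y = ⌊Real.exp (lam / (3 * M))⌋₊ →
    Real.exp L / 16 ≤ lam → lam ≤ Real.exp L →
    c * Real.exp (5 / 8 * L - 7 / 2 * Real.log L) ≤
      ∑ T ∈ TF z y (3 * M), ∏ p ∈ T, (1 / (p : ℝ)) := by
  obtain ⟨CA, hA0, hA⟩ := mer_int {17, 33, 41} (by decide) tyA tyA_iff
  obtain ⟨CB, hB0, hB⟩ := mer_int {11, 43, 51} (by decide) tyB tyB_iff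
  obtain ⟨CS, hS0, hS⟩ := mer_int {1, 9, 25, 3, 19, 27, 5, 13, 45} (by decide)
    (fun p => tyS p ∨ tyI p) tySI_iff
  have hc3 : ((({17, 33, 41} : Finset ℕ).card : ℝ)) / 24 = 1 / 8 := by
    rw [show ({17, 33, 41} : Finset ℕ).card = 3 by decide]; norm_num
  have hc3' : ((({11, 43, 51} : Finset ℕ).card : ℝ)) / 24 = 1 / 8 := by
    rw [show ({11, 43, 51} : Finset ℕ).card = 3 by decide]; norm_num
  have hc9 : ((({1, 9, 25, 3, 19, 27, 5, 13, 45} : Finset ℕ).card : ℝ)) / 24 = 3 / 8 := by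
    rw [show ({1, 9, 25, 3, 19, 27, 5, 13, 45} : Finset ℕ).card = 9 by decide]; norm_num
  rw [hc3] at hA
  rw [hc3'] at hB
  rw [hc9] at hS
  refine ⟨1 / 24 * Real.exp (-(2 * (7 / 4 + CA + CB)) - 13 / 4 - CS), by positivity, ?_⟩
  filter_upwards [eventually_ge_atTop (10 * (CA + CB + CS + 2)), ev_pow 4 96,
    ev_log (1 / 100) (by norm_num)] with L hL hE hlog lam z y M hM hz hy hl1 hl2
  have hL20 : 20 ≤ L := by linarith
  have hL0 : 0 < L := by linarith
  have hlogL : 0 ≤ Real.log L := Real.log_nonneg (by linarith)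
  have hM1 : L ≤ M := by rw [hM]; exact Nat.le_ceil L
  have hM2 : (M : ℝ) ≤ L + 1 := by rw [hM]; exact (Nat.ceil_lt_add_one hL0.le).le
  have hM3 : (M : ℝ) ≤ 2 * L := by linarith
  have hMpos : (0 : ℝ) < M := by linarith
  have hL3 : L * 400 ≤ L ^ 3 := by nlinarith [sq_nonneg (L - 20), sq_nonneg L]
  have hlp : 0 < lam := lt_of_lt_of_le (by positivity) hl1
  -- the size of `y`
  have hyl : L ^ 3 ≤ lam / (3 * M) := by
    rw [le_div_iff₀ (by positivity)]
    calc L ^ 3 * (3 * M) ≤ L ^ 3 * (3 * (2 * L)) := by gcongr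
      _ = 96 * L ^ 4 / 16 := by ring
      _ ≤ Real.exp L / 16 := by linarith
      _ ≤ lam := hl1
  have hz2 := fl (s := L ^ 3) (by linarith)
  have hy2 := fl (s := lam / (3 * M)) (by linarith)
  rw [← hz] at hz2
  rw [← hy] at hy2
  have hzy : z ≤ y := by
    rw [hz, hy]
    exact Nat.floor_le_floor (Real.exp_le_exp.2 hyl)
  have hz0 : (0 : ℝ) < z := by
    have : 0 < z := by omega
    exact_mod_cast this
  have hzL : Real.exp L ≤ z := by
    rw [← Real.le_log_iff_exp_le hz0]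
    linarith [hz2.2.1]
  have hzL4 : 96 * L ^ 4 ≤ z := hE.trans hzL
  have hL4 : L ≤ L ^ 4 := by
    have : 1 ≤ L ^ 3 := by linarith
    nlinarith
  have hz96 : 96 * L ≤ z := by linarith
  -- the parameter
  have hu : L - 4 * Real.log L - 6 ≤ Real.log (lam / (3 * M) / 2) - Real.log (L ^ 3) := by
    have h1 : Real.exp L / (192 * L) ≤ lam / (3 * M) / 2 := by
      rw [div_div, div_le_div_iff₀ (by positivity) (by positivity)]
      calc Real.exp L * (3 * M * 2) ≤ Real.exp L * (3 * (2 * L) * 2) := by gcongr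
        _ = Real.exp L / 16 * (192 * L) := by ring
        _ ≤ lam * (192 * L) := by gcongr
    have h2 := Real.log_le_log (by positivity) h1
    rw [Real.log_div (Real.exp_pos L).ne' (by positivity), Real.log_exp,
      Real.log_mul (by norm_num) hL0.ne'] at h2
    have h3 : Real.log 192 ≤ 6 := by
      have h4 : Real.log 192 ≤ Real.log (2 ^ 8) := Real.log_le_log (by norm_num) (by norm_num)
      rw [Real.log_pow] at h4
      have := Real.log_two_lt_d9
      push_cast at h4
      linarith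
    rw [Real.log_pow]
    push_cast
    linarith
  set u : ℝ := L - 4 * Real.log L - 6 with hudef
  have hsA : 1 / 8 * u - CA ≤ ∑ p ∈ PI tyA z y, 1 / (p : ℝ) := by
    have h1 := int_low (by norm_num) (show (0 : ℝ) < L ^ 3 by positivity)
      (show 0 < lam / (3 * M) / 2 by positivity) hz2.2.2 hz2.1 hy2.2.1 (hA z y hz2.1 hzy).1
    linarith
  have hsB : 1 / 8 * u - CB ≤ ∑ p ∈ PI tyB z y, 1 / (p : ℝ) := by
    have h1 := int_low (by norm_num) (show (0 : ℝ) < L ^ 3 by positivity)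
      (show 0 < lam / (3 * M) / 2 by positivity) hz2.2.2 hz2.1 hy2.2.1 (hB z y hz2.1 hzy).1
    linarith
  have hsS : 3 / 8 * u - CS ≤ ∑ p ∈ PI (fun p => tyS p ∨ tyI p) z y, 1 / (p : ℝ) := by
    have h1 := int_low (by norm_num) (show (0 : ℝ) < L ^ 3 by positivity)
      (show 0 < lam / (3 * M) / 2 by positivity) hz2.2.2 hz2.1 hy2.2.1 (hS z y hz2.1 hzy).1
    linarith
  have hsS' : ∑ p ∈ PI (fun p => tyS p ∨ tyI p) z y, 1 / (p : ℝ) ≤ 3 / 8 * L + CS := by
    have h1 := (hS z y hz2.1 hzy).2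
    have h2 : Real.log (Real.log y) ≤ L := by
      have h3 : 0 < Real.log y := by linarith [hy2.2.1]
      rw [Real.log_le_iff_le_exp h3]
      refine hy2.2.2.trans ?_
      rw [div_le_iff₀ (by positivity)]
      have : 1 ≤ 3 * (M : ℝ) := by linarith
      nlinarith
    have h3 := loglog_nonneg hz2.1
    linarith
  have hw0 : ∀ (c : ℕ → Prop), ∀ p ∈ PI c z y, (0 : ℝ) ≤ 1 / (p : ℝ) := fun _ _ _ => by positivity
  have hwε : ∀ (c : ℕ → Prop), ∀ p ∈ PI c z y, 1 / (p : ℝ) ≤ 1 / (z : ℝ) := by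
    intro c p hp
    have h1 := (mem_PI.1 hp).2.1
    have h2 : (z : ℝ) ≤ p := by exact_mod_cast h1.le
    exact one_div_le_one_div_of_le hz0 h2
  have hlog2 := Real.log_two_gt_d9
  have h2M : Real.exp (L * Real.log 2) ≤ 2 ^ M := by
    rw [← Real.rpow_natCast, Real.rpow_def_of_pos (by norm_num)]
    apply Real.exp_le_exp.2
    rw [mul_comm]
    exact mul_le_mul_of_nonneg_left hM1 (by linarith)
  have h03 : Real.log 2 * L ≥ 0.69 * L := mul_le_mul_of_nonneg_right (by linarith) hL0.le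
  -- the two balanced types
  set V : ℝ := L / 8 - Real.log L / 2 - (7 / 4 + CA + CB) with hV
  have hV0 : 0 ≤ V := by
    rw [hV]
    linarith
  have hMz : (M : ℝ) * (1 / (z : ℝ)) ≤ 1 := by
    rw [mul_one_div, div_le_one hz0]
    linarith
  have hdiag := diag_low (w := fun p : ℕ => 1 / (p : ℝ)) (P := PI tyA z y) (Q := PI tyB z y)
    (ε := 1 / z) (V := V) (K := M) (hw0 _) (hwε _) (hw0 _) (hwε _) hV0
    (by
      have : 1 / 8 * u - CA ≥ V + 1 := by
        rw [hV, hudef]
        linarith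
      linarith)
    (by
      have : 1 / 8 * u - CB ≥ V + 1 := by
        rw [hV, hudef]
        linarith
      linarith)
    (by positivity) (by
      rw [pow_succ, mul_comm]
      apply mul_le_mul_of_nonneg_right _ (by norm_num)
      refine le_trans (Real.exp_le_exp.2 ?_) h2M
      rw [hV]
      linarith)
  -- the other types
  have hprod : ∏ p ∈ PI (fun p => tyS p ∨ tyI p) z y, (1 + 1 / (p : ℝ)) ≤
      Real.exp (3 / 8 * L + CS) := by
    refine le_trans ?_ (Real.exp_le_exp.2 hsS')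
    rw [Real.exp_sum]
    refine Finset.prod_le_prod (fun p _ => by positivity) fun p _ => ?_
    have := Real.add_one_le_exp (1 / (p : ℝ))
    linarith
  have hfew := few_low (w := fun p : ℕ => 1 / (p : ℝ)) (P := PI (fun p => tyS p ∨ tyI p) z y)
    (K := M) (hw0 _) (by
      refine le_trans ?_ h2M
      calc 2 * ∏ p ∈ PI (fun p => tyS p ∨ tyI p) z y, (1 + 1 / (p : ℝ)) ≤
            Real.exp 1 * Real.exp (3 / 8 * L + CS) := by
              refine mul_le_mul ?_ hprod (Finset.prod_nonneg fun p _ => by positivity)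
                (Real.exp_pos _).le
              have := Real.add_one_le_exp (1 : ℝ)
              linarith
        _ = Real.exp (1 + (3 / 8 * L + CS)) := (Real.exp_add _ _).symm
        _ ≤ Real.exp (L * Real.log 2) := by
              apply Real.exp_le_exp.2
              linarith)
  have hplow := prod_low' (w := fun p : ℕ => 1 / (p : ℝ))
    (P := PI (fun p => tyS p ∨ tyI p) z y) (by
      intro p hp
      refine ⟨hw0 _ p hp, (hwε _ p hp).trans ?_⟩
      rw [div_le_one hz0]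
      linarith)
  have hsq : ∑ p ∈ PI (fun p => tyS p ∨ tyI p) z y, (1 / (p : ℝ)) ^ 2 ≤ 1 := by
    calc ∑ p ∈ PI (fun p => tyS p ∨ tyI p) z y, (1 / (p : ℝ)) ^ 2 ≤
          ∑ p ∈ PI (fun p => tyS p ∨ tyI p) z y, 1 / (z : ℝ) * (1 / (p : ℝ)) := by
            refine Finset.sum_le_sum fun p hp => ?_
            rw [pow_two]
            exact mul_le_mul_of_nonneg_right (hwε _ p hp) (hw0 _ p hp)
      _ = 1 / (z : ℝ) * ∑ p ∈ PI (fun p => tyS p ∨ tyI p) z y, 1 / (p : ℝ) := by
            rw [Finset.mul_sum]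
      _ ≤ 1 / (z : ℝ) * (3 / 8 * L + CS) := by gcongr
      _ ≤ 1 := by
            rw [one_div_mul_eq_div, div_le_one hz0]
            linarith
  have hfew2 : 1 / 2 * Real.exp (3 / 8 * u - CS - 1) ≤
      ∑ T ∈ (PI (fun p => tyS p ∨ tyI p) z y).powerset.filter (fun T => T.card ≤ M),
        ∏ p ∈ T, (1 / (p : ℝ)) := by
    refine le_trans ?_ hfew
    apply mul_le_mul_of_nonneg_left _ (by norm_num)
    refine le_trans (Real.exp_le_exp.2 ?_) hplow
    linarith
  have hTF := TF_low z y M M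
  rw [show 2 * M + M = 3 * M by ring] at hTF
  refine le_trans ?_ hTF
  have hdiag2 : Real.exp (L / 4 - 2 * Real.log L - 2 * (7 / 4 + CA + CB)) / 12 ≤
      ∑ j ∈ range (M + 1), Ej (fun p => 1 / (p : ℝ)) (PI tyA z y) j *
        Ej (fun p => 1 / (p : ℝ)) (PI tyB z y) j := by
    refine le_trans ?_ hdiag
    have h1 : Real.exp (L / 4 - 2 * Real.log L - 2 * (7 / 4 + CA + CB)) = Real.exp (2 * V) / L := by
      rw [show L / 4 - 2 * Real.log L - 2 * (7 / 4 + CA + CB) = 2 * V - Real.log L by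
        rw [hV]; ring, Real.exp_sub, Real.exp_log hL0]
    rw [h1, div_div]
    apply div_le_div_of_nonneg_left (Real.exp_pos _).le (by positivity)
    linarith
  calc 1 / 24 * Real.exp (-(2 * (7 / 4 + CA + CB)) - 13 / 4 - CS) *
        Real.exp (5 / 8 * L - 7 / 2 * Real.log L) =
      (Real.exp (L / 4 - 2 * Real.log L - 2 * (7 / 4 + CA + CB)) / 12) *
        (1 / 2 * Real.exp (3 / 8 * u - CS - 1)) := by
        have e1 : Real.exp (-(2 * (7 / 4 + CA + CB)) - 13 / 4 - CS) *
            Real.exp (5 / 8 * L - 7 / 2 * Real.log L) =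
            Real.exp (L / 4 - 2 * Real.log L - 2 * (7 / 4 + CA + CB)) *
            Real.exp (3 / 8 * u - CS - 1) := by
          rw [← Real.exp_add, ← Real.exp_add]
          congr 1
          rw [hudef]
          ring
        calc _ = 1 / 24 * (Real.exp (-(2 * (7 / 4 + CA + CB)) - 13 / 4 - CS) *
            Real.exp (5 / 8 * L - 7 / 2 * Real.log L)) := by ring
          _ = _ := by rw [e1]; ring
    _ ≤ _ := mul_le_mul hdiag2 hfew2 (by positivity) (le_trans (by positivity) hdiag2)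

end Pool.Agent.NH5.GC
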