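import Pool.Agent.NH5.GC.Asy2

/-!
# The asymptotics, III: the lower bound for the number of the sets of the class
-/

set_option autoImplicit false

open scoped Classical

namespace Pool.Agent.NH5.GC

open Finset Filter

theorem bg_asy : ∃ (c : ℝ), 0 < c ∧ ∀ᶠ L : ℝ in atTop, ∀ (X z k e : ℕ),
    Real.log (Real.log X) = L → z = ⌊Real.exp (L ^ 3)⌋₊ → k = 3 * ⌈L⌉₊ + 3 → e < 2 →
    c * X * Real.exp (-(3 / 8) * L - 7 / 2 * Real.log L) ≤ ((BG X z k e).card : ℝ) := by
  obtain ⟨c₁, Y₁, hc₁, hbg⟩ := bg_low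
  obtain ⟨c₂, hc₂, hTF⟩ := TF_asy
  obtain ⟨C1, h10, h1⟩ := mer_int {1} (by decide) (fun p => p % 56 = 1) (by simp)
  obtain ⟨C3, h30, h3⟩ := mer_int {3} (by decide) (fun p => p % 56 = 3) (by simp)
  obtain ⟨C5, h50, h5⟩ := mer_int {5} (by decide) (fun p => p % 56 = 5) (by simp)
  rw [Finset.card_singleton] at h1 h3 h5
  set C : ℝ := C1 + C3 + C5 with hCdef
  set δ : ℝ := Real.exp (-(24 * (1 + C))) with hδ
  have hδ0 : 0 < δ := Real.exp_pos _
  have hδ1 : δ ≤ 1 := by
    rw [hδ]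
    apply Real.exp_le_one_iff.2
    have : 0 ≤ C := by rw [hCdef]; linarith
    linarith
  have hδl : Real.log δ = -(24 * (1 + C)) := by rw [hδ, Real.log_exp]
  refine ⟨c₁ * c₂, by positivity, ?_⟩
  filter_upwards [eventually_ge_atTop (20 : ℝ), eventually_ge_atTop (Y₁ : ℝ),
    eventually_ge_atTop (4 / δ ^ 2), ev_pow 4 96, hTF] with L hL20 hLY hLδ hE hTFL X z k e hX hz hk he
  have hL0 : 0 < L := by linarith
  have hlX : Real.log X = Real.exp L := by
    have h0 : 0 ≤ Real.log (X : ℝ) := Real.log_natCast_nonneg X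
    rcases h0.lt_or_eq with h | h
    · rw [← hX, Real.exp_log h]
    · rw [← h, Real.log_zero] at hX
      linarith
  have hX0 : 0 < X := by
    rcases Nat.eq_zero_or_pos X with h | h
    · rw [h, Nat.cast_zero, Real.log_zero] at hlX
      have := Real.exp_pos L
      linarith
    · exact h
  obtain ⟨Y, hY1, hY2⟩ := Pool.Agent.Y302.CQ.exists_root X
  have hL4 : L ≤ L ^ 4 := by
    have : 1 ≤ L ^ 3 := one_le_pow₀ (by linarith)
    nlinarith
  have hEL : 96 * L ≤ Real.exp L := by linarith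
  have hYge : 2 ≤ Y := by
    by_contra h
    have h6 : Y + 1 ≤ 2 := by omega
    have h7 : X < 2 ^ 8 := lt_of_lt_of_le hY2 (Nat.pow_le_pow_left h6 8)
    have h8 : Real.log X ≤ Real.log (2 ^ 8 : ℝ) :=
      Real.log_le_log (by exact_mod_cast hX0) (by exact_mod_cast h7.le)
    rw [Real.log_pow, hlX] at h8
    have := Real.log_two_lt_d9
    push_cast at h8
    linarith
  have hY0 : (0 : ℝ) < Y := by
    have : 0 < Y := by omega
    exact_mod_cast this
  set lam : ℝ := Real.log Y with hlam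
  have hl2 : 8 * lam ≤ Real.exp L := by
    have h6 : Real.log ((Y : ℝ) ^ 8) ≤ Real.log X :=
      Real.log_le_log (by positivity) (by exact_mod_cast hY1)
    rw [Real.log_pow, hlX] at h6
    push_cast at h6
    exact h6
  have hl1 : Real.exp L / 16 ≤ lam := by
    have h6 : (Y + 1) ^ 8 ≤ Y ^ 16 := by
      calc (Y + 1) ^ 8 ≤ (Y ^ 2) ^ 8 := Nat.pow_le_pow_left (by nlinarith) 8
        _ = Y ^ 16 := by ring
    have h7 : Real.log X ≤ Real.log ((Y : ℝ) ^ 16) :=
      Real.log_le_log (by exact_mod_cast hX0) (by exact_mod_cast (hY2.trans_le h6).le)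
    rw [Real.log_pow, hlX] at h7
    push_cast at h7
    linarith
  have hlp : 0 < lam := lt_of_lt_of_le (by positivity) hl1
  have hl6 : 6 * L ^ 4 ≤ lam := by linarith
  have hlL : L ≤ lam := by nlinarith
  have hYY : Y₁ ≤ Y := by
    have h6 : lam ≤ Y := Real.log_le_self hY0.le
    have h7 : (Y₁ : ℝ) ≤ Y := by linarith
    exact_mod_cast h7
  set M : ℕ := ⌈L⌉₊ with hM
  have hM1 : L ≤ M := by rw [hM]; exact Nat.le_ceil L
  have hM2 : (M : ℝ) ≤ L + 1 := by rw [hM]; exact (Nat.ceil_lt_add_one hL0.le).le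
  have hM3 : (M : ℝ) ≤ 2 * L := by linarith
  have hMpos : (0 : ℝ) < M := by linarith
  have hL3 : L * 400 ≤ L ^ 3 := by nlinarith [sq_nonneg (L - 20), sq_nonneg L]
  have hyl : L ^ 3 ≤ lam / (3 * M) := by
    rw [le_div_iff₀ (by positivity)]
    calc L ^ 3 * (3 * M) ≤ L ^ 3 * (3 * (2 * L)) := by gcongr
      _ = 6 * L ^ 4 := by ring
      _ ≤ lam := hl6
  set y : ℕ := ⌊Real.exp (lam / (3 * M))⌋₊ with hy
  set y₀ : ℕ := ⌊Real.exp (δ ^ 2 / 2 * lam)⌋₊ with hy₀
  set y₁ : ℕ := ⌊Real.exp (δ * lam)⌋₊ with hy₁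
  have hδ2 : (4 : ℝ) ≤ δ ^ 2 * L := by
    rw [div_le_iff₀ (by positivity)] at hLδ
    linarith
  have hs0 : 2 ≤ δ ^ 2 / 2 * lam := by
    have : δ ^ 2 * L ≤ δ ^ 2 * lam := by gcongr
    linarith
  have hs1 : δ ^ 2 / 2 * lam ≤ δ * lam := by
    apply mul_le_mul_of_nonneg_right _ hlp.le
    nlinarith
  have hs2 : lam / (3 * M) ≤ δ ^ 2 / 2 * lam := by
    rw [div_le_iff₀ (by positivity)]
    have h6 : 1 ≤ δ ^ 2 / 2 * (3 * M) := by
      have h7 : δ ^ 2 * L ≤ δ ^ 2 * M := by gcongr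
      linarith
    calc lam = lam * 1 := by ring
      _ ≤ lam * (δ ^ 2 / 2 * (3 * M)) := by gcongr
      _ = _ := by ring
  have hfz := fl (s := L ^ 3) (by linarith)
  rw [← hz] at hfz
  have hfy := fl (s := lam / (3 * M)) (by linarith)
  rw [← hy] at hfy
  have hf0 := fl hs0
  rw [← hy₀] at hf0
  have hf1 := fl (hs0.trans hs1)
  rw [← hy₁] at hf1
  have hzy : z ≤ y := by
    rw [hz, hy]
    exact Nat.floor_le_floor (Real.exp_le_exp.2 hyl)
  have hyy0 : y ≤ y₀ := Nat.floor_le_floor (Real.exp_le_exp.2 hs2)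
  have hy01 : y₀ ≤ y₁ := Nat.floor_le_floor (Real.exp_le_exp.2 hs1)
  have hy1Y : y₁ ≤ Y := by
    have h6 : Real.exp (δ * lam) ≤ Y := by
      calc Real.exp (δ * lam) ≤ Real.exp lam := by
            apply Real.exp_le_exp.2
            nlinarith
        _ = Y := by rw [hlam, Real.exp_log hY0]
    exact Nat.floor_le_of_le h6
  have hTY : ∀ T ∈ TF z y (3 * M), ∏ p ∈ T, p ≤ Y := by
    intro T hT
    obtain ⟨g1, -, g3⟩ := mem_TF.1 hT
    have h6 : ∏ p ∈ T, p ≤ y ^ T.card := Finset.prod_le_pow_card T _ y fun p hp => (g1 p hp).1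
    have h7 : y ^ T.card ≤ y ^ (3 * M) := Nat.pow_le_pow_right (by omega) g3
    have h8 : ((y ^ (3 * M) : ℕ) : ℝ) ≤ Y := by
      push_cast
      calc (y : ℝ) ^ (3 * M) ≤ (Real.exp (lam / (3 * M))) ^ (3 * M) := by
            apply pow_le_pow_left₀ (Nat.cast_nonneg _)
            exact Nat.floor_le (Real.exp_pos _).le
        _ = Real.exp lam := by
            rw [← Real.exp_nat_mul]
            congr 1
            push_cast
            field_simp
        _ = Y := by rw [hlam, Real.exp_log hY0]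
    have h9 : y ^ (3 * M) ≤ Y := by exact_mod_cast h8
    exact h6.trans (h7.trans h9)
  have hC : ∀ a : ℕ, a = 1 ∨ a = 3 ∨ a = 5 → ∀ u v : ℕ, 3 ≤ u → u ≤ v →
      1 / 24 * (Real.log (Real.log v) - Real.log (Real.log u)) - C ≤
      ∑ p ∈ PI (fun p => p % 56 = a) u v, 1 / (p : ℝ) := by
    intro a ha u v hu huv
    rcases ha with rfl | rfl | rfl
    · have := (h1 u v hu huv).1
      push_cast at this
      rw [hCdef]
      linarith
    · have := (h3 u v hu huv).1
      push_cast at this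
      rw [hCdef]
      linarith
    · have := (h5 u v hu huv).1
      push_cast at this
      rw [hCdef]
      linarith
  have hw1 : ∀ a, a = 1 ∨ a = 5 →
      (1 : ℝ) ≤ ∑ p ∈ PI (fun p => p % 56 = a) y₀ y₁, 1 / (p : ℝ) := by
    intro a ha
    have h6 := int_low (by norm_num) (show (0 : ℝ) < δ ^ 2 / 2 * lam by positivity)
      (show 0 < δ * lam / 2 by positivity) hf0.2.2 hf0.1 hf1.2.1
      (hC a (by tauto) y₀ y₁ hf0.1 hy01)
    refine le_trans (le_of_eq ?_) h6
    rw [show δ * lam / 2 = δ * (lam / 2) by ring,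
      show δ ^ 2 / 2 * lam = δ * (δ * (lam / 2)) by ring,
      Real.log_mul hδ0.ne' (by positivity), Real.log_mul hδ0.ne' (by positivity),
      Real.log_mul hδ0.ne' (by positivity), hδl]
    ring
  have hw2 : ∀ a, a = 1 ∨ a = 3 →
      (1 : ℝ) ≤ ∑ p ∈ PI (fun p => p % 56 = a) y₁ Y, 1 / (p : ℝ) := by
    intro a ha
    have h6 := int_low (by norm_num) (show (0 : ℝ) < δ * lam by positivity)
      hlp hf1.2.2 hf1.1 hlam.le (hC a (by tauto) y₁ Y hf1.1 hy1Y)
    refine le_trans (le_of_eq ?_) h6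
    rw [Real.log_mul hδ0.ne' (by positivity), hδl]
    ring
  have hmain := hbg X Y y₀ y₁ y z (3 * M) k e hYY hY1 hyy0 hy01 hy1Y (hzy.trans hyy0) hTY
    (by rw [hk]) he hw1 hw2
  have hT := hTFL lam z y M rfl hz rfl hl1 (by linarith)
  refine le_trans ?_ hmain
  rw [hlX]
  have hXpos : (0 : ℝ) < X := by exact_mod_cast hX0
  calc c₁ * c₂ * X * Real.exp (-(3 / 8) * L - 7 / 2 * Real.log L) =
      c₁ * (X / Real.exp L) * (c₂ * Real.exp (5 / 8 * L - 7 / 2 * Real.log L)) := by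
        have e1 : Real.exp (5 / 8 * L - 7 / 2 * Real.log L) =
            Real.exp L * Real.exp (-(3 / 8) * L - 7 / 2 * Real.log L) := by
          rw [← Real.exp_add]
          congr 1
          ring
        rw [e1]
        have := Real.exp_pos L
        field_simp
    _ ≤ _ := mul_le_mul_of_nonneg_left hT (by positivity)

end Pool.Agent.NH5.GC
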