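import Pool.Agent.NH5.GC.LB
import Pool.Agent.Y657.CQ.BOX
import Pool.Agent.Y356.CQ.EQ

/-!
# The count in a box
-/

set_option autoImplicit false

open scoped Classical

namespace Pool.Agent.NH5.GC

open Finset
open Pool.Agent.Y703.CQ (prs nr HB S_EQ)
open Pool.Agent.Y657.CQ (nr_symm nr_self ext_sum HB_sub)

/-- split in both fields -/
def tyS (p : ℕ) : Prop := p % 8 = 1 ∧ (p % 7 = 1 ∨ p % 7 = 2 ∨ p % 7 = 4)
/-- split only in `ℚ(√2)` -/
def tyA (p : ℕ) : Prop := p % 8 = 1 ∧ (p % 7 = 3 ∨ p % 7 = 5 ∨ p % 7 = 6)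
/-- split only in `ℚ(√-7)` -/
def tyB (p : ℕ) : Prop := p % 8 = 3 ∧ (p % 7 = 1 ∨ p % 7 = 2 ∨ p % 7 = 4)
/-- inert in both fields -/
def tyI (p : ℕ) : Prop := (p % 8 = 3 ∨ p % 8 = 5) ∧ (p % 7 = 3 ∨ p % 7 = 5 ∨ p % 7 = 6)

/-- the matrix is nonsingular -/
def GdS (f : ℕ → ZMod 2) (S : Finset ℕ) : Prop :=
  ∀ x : ℕ → ZMod 2, (∀ p ∈ S, ¬ tyS p → ¬ tyB p → x p = 0) →
    (∀ p ∈ S, tyS p → ∑ q ∈ S, nr p q * (x q + x p) + f p * x p = 0) →
    (∀ p ∈ S, tyA p → ∑ q ∈ S, nr p q * x q = 0) → ∀ p ∈ S, x p = 0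

variable {ι : Type} [Fintype ι] [LinearOrder ι]

theorem gds_of {f : ℕ → ZMod 2} {tS tA tB : Finset ι} {p : ι → ℕ} (hp : Function.Injective p)
    (hpr : ∀ i, (p i).Prime ∧ p i ≠ 2) (hS : ∀ i, tyS (p i) ↔ i ∈ tS) (hA : ∀ i, tyA (p i) ↔ i ∈ tA)
    (hB : ∀ i, tyB (p i) ↔ i ∈ tB)
    (hJ : ∀ i, p i % 8 = 1 ↔ i ∈ tS ∪ tA)
    (h : GS tS tA tB (fun e : prs (tS ∪ tA) => nr (p e.1.1) (p e.1.2)) (fun k => f (p k))) :
    GdS f (univ.image p) := by
  intro x h1 h2 h3
  have hmem : ∀ i, p i ∈ univ.image p := fun i => mem_image_of_mem _ (mem_univ i)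
  have hsum : ∀ F : ℕ → ZMod 2, ∑ q ∈ univ.image p, F q = ∑ l, F (p l) := fun F =>
    Finset.sum_image (fun a _ b _ h => hp h)
  have h4 := h (fun i => x (p i)) (fun i hiS hiB => h1 _ (hmem i) (fun h => hiS ((hS i).1 h))
    fun h => hiB ((hB i).1 h)) (fun k hk => by
      have h5 := h2 _ (hmem k) ((hS k).2 hk)
      rw [hsum] at h5
      rw [ext_sum hpr hJ k (mem_union_left _ hk) (fun l => x (p l))]
      exact h5) (fun k hk => by
      have h5 := h3 _ (hmem k) ((hA k).2 hk)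
      rw [hsum] at h5
      have h6 := ext_sum hpr hJ k (mem_union_right _ hk) (fun l => x (p l)) 0
      simp only [add_zero] at h6
      rw [h6]
      exact h5)
  intro q hq
  obtain ⟨i, -, rfl⟩ := mem_image.1 hq
  exact h4 i

/-- **the count in a box** -/
theorem box_low (hEQ : S_EQ) (f : ℕ → ZMod 2) {tS tA tB : Finset ι} (dSA : Disjoint tS tA)
    (dSB : Disjoint tS tB) (dAB : Disjoint tA tB) (hc : tA.card = tB.card)
    (h0 : ∃ i, i ∉ tS ∧ i ∉ tA ∧ i ∉ tB) {C : ι → Finset ℕ} {X : ι → ℕ} {κ : ℝ} (hκ : 0 ≤ κ)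
    (hCX : ∀ i, (C i).card ≤ X i) (hHB : HB (tS ∪ tA) C X κ)
    (hC : ∀ i, ∀ p ∈ C i, p.Prime ∧ p ≠ 2 ∧ (tyS p ↔ i ∈ tS) ∧ (tyA p ↔ i ∈ tA) ∧ (tyB p ↔ i ∈ tB) ∧
      (p % 8 = 1 ↔ i ∈ tS ∪ tA))
    (hdis : ∀ i l, i ≠ l → Disjoint (C i) (C l)) :
    (1 / 10 : ℝ) * ((Fintype.piFinset C).card : ℝ) -
      2 ^ (Fintype.card ι + (prs (tS ∪ tA)).card) * (κ * ∏ j, (X j : ℝ)) ≤
      (((Fintype.piFinset C).filter fun p => GdS f (univ.image p)).card : ℝ) := by
  obtain ⟨i0, hi0⟩ := h0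
  set R : ℝ := 2 ^ (prs (tS ∪ tA)).card * (κ * ∏ j, (X j : ℝ)) with hR
  have hinj : ∀ p ∈ Fintype.piFinset C, Function.Injective p := by
    intro p hp i j hij
    rw [Fintype.mem_piFinset] at hp
    by_contra hne
    have h1 := Finset.disjoint_left.1 (hdis i j hne) (hp i)
    rw [hij] at h1
    exact h1 (hp j)
  -- the part with given values of `f`
  have h1 : ∀ β : ι → ZMod 2,
      (1 / 10 : ℝ) * (((Fintype.piFinset C).filter fun p => (fun i => f (p i)) = β).card : ℝ) - R ≤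
      (((Fintype.piFinset C).filter fun p => (fun i => f (p i)) = β ∧
        GdS f (univ.image p)).card : ℝ) := by
    intro β
    set C' : ι → Finset ℕ := fun i => (C i).filter fun q => f q = β i with hC'
    have hpi : (Fintype.piFinset C).filter (fun p => (fun i => f (p i)) = β) =
        Fintype.piFinset C' := by
      ext p
      simp only [Finset.mem_filter, Fintype.mem_piFinset, hC']
      constructor
      · rintro ⟨h2, h3⟩ i
        exact ⟨h2 i, congrFun h3 i⟩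
      · intro h2
        exact ⟨fun i => (h2 i).1, funext fun i => (h2 i).2⟩
    set Q : (prs (tS ∪ tA) → ZMod 2) → Prop := fun α => GS tS tA tB α β with hQ
    have h3 := hEQ ι (tS ∪ tA) C' X κ hκ
      (fun i => (Finset.card_le_card (Finset.filter_subset _ _)).trans (hCX i))
      (HB_sub hHB fun i q => f q = β i) Q
    have h4 : ((Fintype.piFinset C').filter fun p => Q fun e => nr (p e.1.1) (p e.1.2)) ⊆
        ((Fintype.piFinset C).filter fun p => (fun i => f (p i)) = β ∧ GdS f (univ.image p)) := by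
      intro p hp
      rw [Finset.mem_filter] at hp ⊢
      obtain ⟨hp1, hp2⟩ := hp
      rw [← hpi, Finset.mem_filter] at hp1
      obtain ⟨hp1, hp3⟩ := hp1
      have hp1' := Fintype.mem_piFinset.1 hp1
      refine ⟨hp1, hp3, ?_⟩
      refine gds_of (hinj p hp1) (fun i => ⟨(hC i _ (hp1' i)).1, (hC i _ (hp1' i)).2.1⟩)
        (fun i => (hC i _ (hp1' i)).2.2.1) (fun i => (hC i _ (hp1' i)).2.2.2.1)
        (fun i => (hC i _ (hp1' i)).2.2.2.2.1) (fun i => (hC i _ (hp1' i)).2.2.2.2.2) ?_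
      rw [hp3]
      exact hp2
    have h5 : (((Fintype.piFinset C').card : ℕ) : ℝ) = ∏ j, ((C' j).card : ℝ) := by
      rw [Fintype.card_piFinset]
      push_cast
      rfl
    have h6 := gs_low dSA dSB dAB hi0 β hc
    have h7 : (1 / 10 : ℝ) ≤ ((univ.filter Q).card : ℝ) / 2 ^ (prs (tS ∪ tA)).card := by
      rw [le_div_iff₀ (by positivity)]
      exact h6
    rw [hpi, h5]
    have hP0 : (0 : ℝ) ≤ ∏ j, ((C' j).card : ℝ) := Finset.prod_nonneg fun j _ => by positivity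
    have h8 := (abs_le.1 h3).1
    have h9 := mul_le_mul_of_nonneg_right h7 hP0
    have h10 : (((Fintype.piFinset C').filter fun p => Q fun e => nr (p e.1.1) (p e.1.2)).card : ℝ) ≤
        (((Fintype.piFinset C).filter fun p => (fun i => f (p i)) = β ∧
          GdS f (univ.image p)).card : ℝ) := by exact_mod_cast Finset.card_le_card h4
    linarith
  -- sum over the values
  have hfib : ∀ T : (ι → ℕ) → Prop, (((Fintype.piFinset C).filter T).card : ℝ) =
      ∑ β : ι → ZMod 2, (((Fintype.piFinset C).filter fun p =>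
        (fun i => f (p i)) = β ∧ T p).card : ℝ) := by
    intro T
    rw [Finset.card_eq_sum_card_fiberwise (f := fun (p : ι → ℕ) (i : ι) => f (p i))
      (t := univ) (by
        intro p _
        exact Finset.mem_coe.2 (Finset.mem_univ _))]
    push_cast
    refine Finset.sum_congr rfl fun β _ => ?_
    congr 2
    ext p
    simp only [Finset.mem_filter]
    tauto
  have hf2 := hfib fun _ => True
  simp only [and_true, Finset.filter_true] at hf2
  rw [hfib fun p => GdS f (univ.image p), hf2, Finset.mul_sum]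
  have h2 := Finset.sum_le_sum fun β (_ : β ∈ (univ : Finset (ι → ZMod 2))) => h1 β
  rw [Finset.sum_sub_distrib, Finset.sum_const, nsmul_eq_mul, Finset.card_univ, Fintype.card_fun,
    ZMod.card] at h2
  refine le_trans (le_of_eq ?_) h2
  rw [hR, pow_add]
  push_cast
  ring

end Pool.Agent.NH5.GC
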