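import Mathlib

/-!
# Elementary symmetric sums of the reciprocals of large primes
-/

set_option autoImplicit false

open scoped Classical

namespace Pool.Agent.NH5.GC

open Finset

/-- the elementary symmetric sums -/
noncomputable def Ej (w : ℕ → ℝ) (P : Finset ℕ) (j : ℕ) : ℝ :=
  ∑ T ∈ P.powersetCard j, ∏ p ∈ T, w p

theorem Ej_succ (w : ℕ → ℝ) (P : Finset ℕ) (j : ℕ) :
    (j + 1 : ℝ) * Ej w P (j + 1) =
      ∑ T ∈ P.powersetCard j, (∏ p ∈ T, w p) * (∑ p ∈ P, w p - ∑ p ∈ T, w p) := by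
  unfold Ej
  have h1 : (j + 1 : ℝ) * ∑ T ∈ P.powersetCard (j + 1), ∏ p ∈ T, w p =
      ∑ x ∈ (P.powersetCard (j + 1)).sigma fun T => T, ∏ p ∈ x.1, w p := by
    rw [Finset.sum_sigma, Finset.mul_sum]
    refine Finset.sum_congr rfl fun T hT => ?_
    show (j + 1 : ℝ) * ∏ p ∈ T, w p = ∑ _s ∈ T, ∏ p ∈ T, w p
    rw [Finset.sum_const, nsmul_eq_mul, (mem_powersetCard.1 hT).2]
    push_cast
    rfl
  have h2 : ∑ T ∈ P.powersetCard j, (∏ p ∈ T, w p) * (∑ p ∈ P, w p - ∑ p ∈ T, w p) =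
      ∑ x ∈ (P.powersetCard j).sigma fun T => P \ T, (∏ p ∈ x.1, w p) * w x.2 := by
    rw [Finset.sum_sigma]
    refine Finset.sum_congr rfl fun T hT => ?_
    show (∏ p ∈ T, w p) * (∑ p ∈ P, w p - ∑ p ∈ T, w p) = ∑ s ∈ P \ T, (∏ p ∈ T, w p) * w s
    rw [← Finset.mul_sum, ← Finset.sum_sdiff (mem_powersetCard.1 hT).1]
    ring
  rw [h1, h2]
  refine Finset.sum_bij' (fun x _ => (⟨x.1.erase x.2, x.2⟩ : Σ _ : Finset ℕ, ℕ))
    (fun x _ => (⟨insert x.2 x.1, x.2⟩ : Σ _ : Finset ℕ, ℕ)) ?_ ?_ ?_ ?_ ?_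
  · rintro ⟨T, p⟩ hx
    rw [mem_sigma, mem_powersetCard] at hx
    obtain ⟨⟨h3, h4⟩, h5⟩ := hx
    simp only at h3 h4 h5
    rw [mem_sigma, mem_powersetCard]
    refine ⟨⟨(erase_subset _ _).trans h3, ?_⟩, ?_⟩
    · simp only
      rw [card_erase_of_mem h5, h4]
      rfl
    · simp only
      rw [mem_sdiff]
      exact ⟨h3 h5, notMem_erase p T⟩
  · rintro ⟨T, p⟩ hx
    rw [mem_sigma, mem_powersetCard] at hx
    obtain ⟨⟨h3, h4⟩, h5⟩ := hx
    simp only at h3 h4 h5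
    rw [mem_sdiff] at h5
    rw [mem_sigma, mem_powersetCard]
    refine ⟨⟨?_, ?_⟩, ?_⟩
    · intro q hq
      rcases mem_insert.1 hq with rfl | hq
      · exact h5.1
      · exact h3 hq
    · simp only
      rw [card_insert_of_notMem h5.2, h4]
    · exact mem_insert_self _ _
  · rintro ⟨T, p⟩ hx
    rw [mem_sigma] at hx
    simp only at hx
    simp only [Sigma.mk.injEq, heq_eq_eq, and_true]
    exact insert_erase hx.2
  · rintro ⟨T, p⟩ hx
    rw [mem_sigma, mem_sdiff] at hx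
    simp only at hx
    simp only [Sigma.mk.injEq, heq_eq_eq, and_true]
    exact erase_insert hx.2.2
  · rintro ⟨T, p⟩ hx
    rw [mem_sigma] at hx
    simp only at hx
    simp only
    rw [mul_comm, mul_prod_erase _ _ hx.2]

theorem Ej_zero (w : ℕ → ℝ) (P : Finset ℕ) : Ej w P 0 = 1 := by
  unfold Ej
  simp

theorem Ej_nonneg {w : ℕ → ℝ} {P : Finset ℕ} (hw : ∀ p ∈ P, 0 ≤ w p) (j : ℕ) : 0 ≤ Ej w P j :=
  Finset.sum_nonneg fun _ hT => Finset.prod_nonneg fun p hp =>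
    hw p ((mem_powersetCard.1 hT).1 hp)

/-- lower bound: all the weights are small -/
theorem Ej_low {w : ℕ → ℝ} {P : Finset ℕ} {ε V : ℝ} {K : ℕ} (hw : ∀ p ∈ P, 0 ≤ w p)
    (hε : ∀ p ∈ P, w p ≤ ε) (hV0 : 0 ≤ V) (hV : V + K * ε ≤ ∑ p ∈ P, w p) (hε0 : 0 ≤ ε) :
    ∀ j ≤ K, V ^ j / (j.factorial : ℝ) ≤ Ej w P j := by
  intro j
  induction j with
  | zero =>
    intro _
    rw [Ej_zero]
    simp
  | succ j ih =>
    intro hj
    have h1 := ih (by omega)
    have h2 : V * Ej w P j ≤ (j + 1 : ℝ) * Ej w P (j + 1) := by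
      rw [Ej_succ]
      unfold Ej
      rw [Finset.mul_sum]
      refine Finset.sum_le_sum fun T hT => ?_
      obtain ⟨h3, h4⟩ := mem_powersetCard.1 hT
      have h5 : (0 : ℝ) ≤ ∏ p ∈ T, w p := Finset.prod_nonneg fun p hp => hw p (h3 hp)
      rw [mul_comm]
      refine mul_le_mul_of_nonneg_left ?_ h5
      have h6 : ∑ p ∈ T, w p ≤ K * ε := by
        refine (Finset.sum_le_sum fun p hp => hε p (h3 hp)).trans ?_
        rw [Finset.sum_const, nsmul_eq_mul, h4]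
        have : (j : ℝ) ≤ K := by exact_mod_cast (by omega : j ≤ K)
        exact mul_le_mul_of_nonneg_right this hε0
      linarith
    have h0 : (0 : ℝ) < j + 1 := by positivity
    rw [Nat.factorial_succ, pow_succ]
    push_cast
    rw [div_le_iff₀ (by positivity)]
    have h7 : (0 : ℝ) < (j.factorial : ℝ) := by exact_mod_cast Nat.factorial_pos j
    rw [div_le_iff₀ h7] at h1
    calc V ^ j * V ≤ (Ej w P j * j.factorial) * V := mul_le_mul_of_nonneg_right h1 hV0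
      _ = (V * Ej w P j) * j.factorial := by ring
      _ ≤ ((j + 1 : ℝ) * Ej w P (j + 1)) * j.factorial := mul_le_mul_of_nonneg_right h2 h7.le
      _ = _ := by ring

/-- the partial sums of the exponential series -/
theorem exp_part {V : ℝ} (hV : 0 ≤ V) {K : ℕ} (hK : 2 * Real.exp V ≤ 2 ^ (K + 1)) :
    Real.exp V / 2 ≤ ∑ j ∈ range (K + 1), V ^ j / (j.factorial : ℝ) := by
  have h1 : Summable fun j : ℕ => V ^ j / (j.factorial : ℝ) := Real.summable_pow_div_factorial V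
  have h2 : Real.exp V = ∑' j : ℕ, V ^ j / (j.factorial : ℝ) := by
    rw [Real.exp_eq_exp_ℝ, NormedSpace.exp_eq_tsum_div]
  have h3 : Real.exp (2 * V) = ∑' j : ℕ, (2 * V) ^ j / (j.factorial : ℝ) := by
    rw [Real.exp_eq_exp_ℝ, NormedSpace.exp_eq_tsum_div]
  have h4 : Summable fun j : ℕ => (2 * V) ^ j / (j.factorial : ℝ) :=
    Real.summable_pow_div_factorial (2 * V)
  have h5 := h1.sum_add_tsum_nat_add (K + 1)
  have h6 : ∑' j : ℕ, V ^ (j + (K + 1)) / ((j + (K + 1)).factorial : ℝ) ≤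
      Real.exp (2 * V) / 2 ^ (K + 1) := by
    have h7 : ∑' j : ℕ, V ^ (j + (K + 1)) / ((j + (K + 1)).factorial : ℝ) ≤
        ∑' j : ℕ, ((2 * V) ^ (j + (K + 1)) / ((j + (K + 1)).factorial : ℝ)) / 2 ^ (K + 1) := by
      refine Summable.tsum_le_tsum (fun j => ?_) ((summable_nat_add_iff (K + 1)).2 h1)
        (((summable_nat_add_iff (K + 1)).2 h4).div_const _)
      rw [le_div_iff₀ (by positivity), mul_pow]
      have h8 : (2 : ℝ) ^ (K + 1) ≤ 2 ^ (j + (K + 1)) :=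
        pow_le_pow_right₀ (by norm_num) (by omega)
      have h9 : (0 : ℝ) ≤ V ^ (j + (K + 1)) / ((j + (K + 1)).factorial : ℝ) := by positivity
      calc V ^ (j + (K + 1)) / ((j + (K + 1)).factorial : ℝ) * 2 ^ (K + 1) ≤
            V ^ (j + (K + 1)) / ((j + (K + 1)).factorial : ℝ) * 2 ^ (j + (K + 1)) :=
            mul_le_mul_of_nonneg_left h8 h9
        _ = _ := by ring
    refine h7.trans ?_
    rw [tsum_div_const]
    refine div_le_div_of_nonneg_right ?_ (by positivity)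
    have h8 := h4.sum_add_tsum_nat_add (K + 1)
    rw [h3, ← h8]
    have h9 : (0 : ℝ) ≤ ∑ j ∈ range (K + 1), (2 * V) ^ j / (j.factorial : ℝ) :=
      Finset.sum_nonneg fun _ _ => by positivity
    linarith
  have h10 : Real.exp (2 * V) / 2 ^ (K + 1) ≤ Real.exp V / 2 := by
    rw [div_le_div_iff₀ (by positivity) (by norm_num), two_mul, Real.exp_add]
    have := mul_le_mul_of_nonneg_left hK (Real.exp_pos V).le
    linarith
  rw [← h2] at h5
  linarith

/-- **the diagonal sum of two sequences of elementary symmetric sums** -/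
theorem diag_low {w : ℕ → ℝ} {P Q : Finset ℕ} {ε V : ℝ} {K : ℕ} (hwP : ∀ p ∈ P, 0 ≤ w p)
    (hεP : ∀ p ∈ P, w p ≤ ε) (hwQ : ∀ p ∈ Q, 0 ≤ w p) (hεQ : ∀ p ∈ Q, w p ≤ ε) (hV0 : 0 ≤ V)
    (hVP : V + K * ε ≤ ∑ p ∈ P, w p) (hVQ : V + K * ε ≤ ∑ p ∈ Q, w p) (hε0 : 0 ≤ ε)
    (hK : 2 * Real.exp V ≤ 2 ^ (K + 1)) :
    Real.exp (2 * V) / (4 * (K + 1)) ≤ ∑ j ∈ range (K + 1), Ej w P j * Ej w Q j := by
  have h1 : ∑ j ∈ range (K + 1), (V ^ j / (j.factorial : ℝ)) ^ 2 ≤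
      ∑ j ∈ range (K + 1), Ej w P j * Ej w Q j := by
    refine Finset.sum_le_sum fun j hj => ?_
    have hj' : j ≤ K := Nat.lt_succ_iff.1 (mem_range.1 hj)
    rw [pow_two]
    exact mul_le_mul (Ej_low hwP hεP hV0 hVP hε0 j hj') (Ej_low hwQ hεQ hV0 hVQ hε0 j hj')
      (by positivity) (Ej_nonneg hwP j)
  refine le_trans ?_ h1
  have h2 := Finset.sum_mul_sq_le_sq_mul_sq (range (K + 1)) (fun _ => (1 : ℝ))
    (fun j => V ^ j / (j.factorial : ℝ))
  simp only [one_mul, one_pow, Finset.sum_const, Finset.card_range, nsmul_eq_mul, mul_one] at h2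
  have h3 := exp_part hV0 hK
  have h4 : (Real.exp V / 2) ^ 2 ≤ (∑ j ∈ range (K + 1), V ^ j / (j.factorial : ℝ)) ^ 2 :=
    pow_le_pow_left₀ (by positivity) h3 2
  have h5 : (Real.exp V / 2) ^ 2 = Real.exp (2 * V) / 4 := by
    rw [div_pow, ← Real.exp_nat_mul]
    norm_num
  rw [h5] at h4
  rw [div_le_iff₀ (by positivity)]
  push_cast at h2
  nlinarith

/-- **sets with few elements carry half of the product** -/
theorem few_low {w : ℕ → ℝ} {P : Finset ℕ} {K : ℕ} (hw : ∀ p ∈ P, 0 ≤ w p)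
    (hK : 2 * ∏ p ∈ P, (1 + w p) ≤ 2 ^ K) :
    (1 / 2 : ℝ) * ∏ p ∈ P, (1 + w p) ≤
      ∑ T ∈ P.powerset.filter (fun T => T.card ≤ K), ∏ p ∈ T, w p := by
  have h1 : ∏ p ∈ P, (1 + w p) = ∑ T ∈ P.powerset, ∏ p ∈ T, w p := Finset.prod_one_add P
  have h2 : ∏ p ∈ P, (1 + 2 * w p) = ∑ T ∈ P.powerset, ∏ p ∈ T, (2 * w p) := Finset.prod_one_add P
  have h3 := Finset.sum_filter_add_sum_filter_not P.powerset (fun T => T.card ≤ K)
    (fun T => ∏ p ∈ T, w p)
  have h4 : ∑ T ∈ P.powerset.filter (fun T => ¬ T.card ≤ K), ∏ p ∈ T, w p ≤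
      (∏ p ∈ P, (1 + 2 * w p)) / 2 ^ K := by
    rw [h2, Finset.sum_div]
    refine (Finset.sum_le_sum (g := fun T => (∏ p ∈ T, (2 * w p)) / 2 ^ K) fun T hT => ?_).trans
      (Finset.sum_le_sum_of_subset_of_nonneg (Finset.filter_subset _ _) fun T hT _ => ?_)
    · obtain ⟨h5, h6⟩ := mem_filter.1 hT
      have h7 : (0 : ℝ) ≤ ∏ p ∈ T, w p :=
        Finset.prod_nonneg fun p hp => hw p (mem_powerset.1 h5 hp)
      rw [Finset.prod_mul_distrib, Finset.prod_const, le_div_iff₀ (by positivity), mul_comm]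
      refine mul_le_mul_of_nonneg_right ?_ h7
      exact pow_le_pow_right₀ (by norm_num) (by omega)
    · exact div_nonneg (Finset.prod_nonneg fun p hp =>
        mul_nonneg (by norm_num) (hw p (mem_powerset.1 hT hp))) (by positivity)
  have h5 : ∏ p ∈ P, (1 + 2 * w p) ≤ (∏ p ∈ P, (1 + w p)) ^ 2 := by
    rw [← Finset.prod_pow]
    refine Finset.prod_le_prod (fun p hp => by have := hw p hp; linarith) fun p hp => ?_
    have := hw p hp
    nlinarith
  set E := ∏ p ∈ P, (1 + w p) with hE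
  have hE0 : 0 ≤ E := Finset.prod_nonneg fun p hp => by have := hw p hp; linarith
  have h6 : (∏ p ∈ P, (1 + 2 * w p)) / 2 ^ K ≤ E / 2 := by
    rw [div_le_div_iff₀ (by positivity) (by norm_num)]
    nlinarith
  rw [← h1] at h3
  linarith

/-- the product and the sum -/
theorem prod_low' {w : ℕ → ℝ} {P : Finset ℕ} (hw : ∀ p ∈ P, 0 ≤ w p ∧ w p ≤ 1) :
    Real.exp (∑ p ∈ P, w p - ∑ p ∈ P, w p ^ 2) ≤ ∏ p ∈ P, (1 + w p) := by
  rw [← Finset.sum_sub_distrib, Real.exp_sum]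
  refine Finset.prod_le_prod (fun p _ => (Real.exp_pos _).le) fun p hp => ?_
  obtain ⟨h0, h1⟩ := hw p hp
  have h2 : Real.log (1 + w p) ≥ w p - w p ^ 2 := by
    have h3 : (1 : ℝ) - (1 + w p)⁻¹ ≤ Real.log (1 + w p) := Real.one_sub_inv_le_log_of_pos (by linarith)
    have h4 : w p - w p ^ 2 ≤ 1 - (1 + w p)⁻¹ := by
      have h5 : 1 - (1 + w p)⁻¹ = w p / (1 + w p) := by
        field_simp
        ring
      rw [h5, le_div_iff₀ (by linarith)]
      nlinarith [mul_nonneg h0 (mul_nonneg h0 h0)]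
    linarith
  calc Real.exp (w p - w p ^ 2) ≤ Real.exp (Real.log (1 + w p)) := Real.exp_le_exp.2 h2
    _ = 1 + w p := Real.exp_log (by linarith)

end Pool.Agent.NH5.GC
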