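import Pool.Agent.NH5.GC.Asy3
import Pool.Agent.Y710.CQ.BIL
import Pool.Agent.Y356.CQ.EQ

/-!
# The lower bound for the number of the sets with a nonsingular matrix
-/

set_option autoImplicit false

open scoped Classical

namespace Pool.Agent.NH5.GC

open Finset Filter
open Pool.Agent.Y703.CX (jj XX)
open Pool.Agent.Y703.CQ.K302 (TT mem_TT le_XX)

/-- the sets of the class, all primes greater than `56`, with a nonsingular matrix -/
noncomputable def NS (f : ℕ → ZMod 2) (X e : ℕ) : Finset (Finset ℕ) :=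
  (TT X).filter fun S => (∀ p ∈ S, 56 < p) ∧ Cl0 e S ∧ GdS f S

theorem rg_sub {f : ℕ → ZMod 2} {X z H k e : ℕ} (hH : 1 ≤ H) (hz : 56 ≤ z) :
    ((RG X z H k e).filter fun S => GdS f S) ⊆ NS f X e := by
  intro S hS
  rw [mem_filter] at hS
  obtain ⟨h1, h2⟩ := hS
  unfold RG at h1
  rw [mem_filter] at h1
  obtain ⟨-, h3, h4, -, -, h5⟩ := h1
  unfold NS
  rw [mem_filter]
  refine ⟨mem_TT (fun p hp => (h3 p hp).1) ?_, fun p hp => lt_of_le_of_lt hz (h3 p hp).2, h4, h2⟩
  refine le_trans (Finset.prod_le_prod' fun p hp => ?_) h5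
  exact le_XX hH (h3 p hp).1.one_le

theorem ns_exp : ∀ᶠ L : ℝ in atTop, ∀ (f : ℕ → ZMod 2) (X e : ℕ),
    Real.log (Real.log X) = L → e < 2 →
    X * Real.exp (-(3 / 8) * L - 4 * Real.log L) ≤ ((NS f X e).card : ℝ) := by
  obtain ⟨c, hc, hBG⟩ := bg_asy
  obtain ⟨C, hC1, hkey⟩ := key_low Pool.Agent.Y356.CQ.t_EQ Pool.Agent.Y710.CQ.t_BIL
  filter_upwards [eventually_ge_atTop (1000 : ℝ), eventually_ge_atTop C,
    eventually_ge_atTop ((20 / c) ^ 2), ev_pow 4 96, ev_log (1 / 32) (by norm_num), hBG]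
    with L hL hLC hLc hE hlog hBGL f X e hX he
  have hL0 : 0 < L := by linarith
  have hlX : Real.log X = Real.exp L := by
    have h0 : 0 ≤ Real.log (X : ℝ) := Real.log_natCast_nonneg X
    rcases h0.lt_or_eq with h | h
    · rw [← hX, Real.exp_log h]
    · rw [← h, Real.log_zero] at hX
      linarith
  have hX0 : 0 < X := by
    rcases Nat.eq_zero_or_pos X with h | h
    · rw [h, Nat.cast_zero, Real.log_zero] at hlX
      have := Real.exp_pos L
      linarith
    · exact h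
  have hXpos : (0 : ℝ) < X := by exact_mod_cast hX0
  have hL4 : L ≤ L ^ 4 := by
    have : 1 ≤ L ^ 3 := one_le_pow₀ (by linarith)
    nlinarith
  have hEL : 96 * L ≤ Real.exp L := by linarith
  have hL3 : L ^ 3 = L * L ^ 2 := by ring
  have hL3' : 1000 * L ^ 2 ≤ L ^ 3 := by rw [hL3]; gcongr
  have hL2 : 1000 * L ≤ L ^ 2 := by nlinarith
  -- the parameters
  set z : ℕ := ⌊Real.exp (L ^ 3)⌋₊ with hz
  set k : ℕ := 3 * ⌈L⌉₊ + 3 with hk
  set H : ℕ := ⌈Real.exp (2 * L)⌉₊ with hH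
  set N : ℕ := ⌊(H : ℝ) * Real.exp L⌋₊ + 1 with hN
  set κ : ℝ := C * Real.exp (-(L ^ 3) / 24) with hκ
  have hfz := fl (s := L ^ 3) (by linarith)
  rw [← hz] at hfz
  have hz0 : (0 : ℝ) < z := by
    have : 0 < z := by omega
    exact_mod_cast this
  have hze : Real.exp (L ^ 3 / 2) ≤ z := by
    rw [← Real.le_log_iff_exp_le hz0]
    exact hfz.2.1
  have hz56 : 56 ≤ z := by
    have h1 : (56 : ℝ) ≤ z := by
      have := Real.add_one_le_exp (L ^ 3 / 2)
      linarith
    exact_mod_cast h1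
  have hH1 : Real.exp (2 * L) ≤ H := Nat.le_ceil _
  have hH2 : (H : ℝ) ≤ Real.exp (2 * L) + 1 := (Nat.ceil_lt_add_one (Real.exp_pos _).le).le
  have hHR : (0 : ℝ) < H := lt_of_lt_of_le (Real.exp_pos _) hH1
  have hH0 : 1 ≤ H := by
    have : 0 < H := by exact_mod_cast hHR
    omega
  have hNlt : (H : ℝ) * Real.log X < N := by
    rw [hlX, hN]
    push_cast
    exact Nat.lt_floor_add_one _
  have hNle : (N : ℝ) ≤ H * Real.exp L + 1 := by
    rw [hN]
    push_cast
    have := Nat.floor_le (show 0 ≤ (H : ℝ) * Real.exp L by positivity)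
    linarith
  have hκ0 : 0 ≤ κ := by rw [hκ]; positivity
  have hκz : C ≤ κ ^ 12 * z := by
    rw [hκ, mul_pow, ← Real.exp_nat_mul]
    have h1 : Real.exp ((12 : ℕ) * (-(L ^ 3) / 24)) * Real.exp (L ^ 3 / 2) = 1 := by
      rw [← Real.exp_add, ← Real.exp_zero]
      congr 1
      push_cast
      ring
    have h2 : C ≤ C ^ 12 := le_self_pow₀ hC1 (by norm_num)
    calc C ≤ C ^ 12 := h2
      _ = C ^ 12 * (Real.exp ((12 : ℕ) * (-(L ^ 3) / 24)) * Real.exp (L ^ 3 / 2)) := by
          rw [h1, mul_one]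
      _ ≤ C ^ 12 * (Real.exp ((12 : ℕ) * (-(L ^ 3) / 24)) * z) := by gcongr
      _ = _ := by ring
  have h1 := hkey f X z H k e N κ (by omega) hH0 (by omega) hκ0 hκz hNlt
  have h2 := rg_low (X := X) (z := z) (H := H) (k := k) (e := e) hH0
  have h3 := hBGL X z k e hX hz hk he
  have h4 : ((((RG X z H k e).filter fun S => GdS f S).card : ℕ) : ℝ) ≤ ((NS f X e).card : ℝ) := by
    exact_mod_cast Finset.card_le_card (rg_sub hH0 hz56)
  refine le_trans ?_ h4
  refine le_trans ?_ h1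
  -- the size of the parameters
  have hk4 : (k : ℝ) ≤ 4 * L := by
    have := (Nat.ceil_lt_add_one hL0.le).le
    rw [hk]
    push_cast
    linarith
  have hk0 : (0 : ℝ) ≤ k := Nat.cast_nonneg _
  have hkk : (k : ℝ) ^ 2 ≤ 16 * L ^ 2 := by
    calc (k : ℝ) ^ 2 ≤ (4 * L) ^ 2 := by gcongr
      _ = 16 * L ^ 2 := by ring
  have hEL1 : 1 ≤ Real.exp L := Real.one_le_exp hL0.le
  have hE2 : Real.exp (2 * L) = Real.exp L ^ 2 := by
    rw [← Real.exp_nat_mul]; push_cast; rfl
  have hN4 : (56 * N + 1 : ℝ) ≤ Real.exp (4 * L) := by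
    have e4 : Real.exp (4 * L) = Real.exp L ^ 4 := by
      rw [← Real.exp_nat_mul]; push_cast; rfl
    rw [e4]
    have h5 : (N : ℝ) ≤ 3 * Real.exp L ^ 3 := by
      have h6 : (H : ℝ) * Real.exp L ≤ (Real.exp L ^ 2 + 1) * Real.exp L := by
        rw [← hE2]
        gcongr
      have h7 : Real.exp L ≤ Real.exp L ^ 3 := le_self_pow₀ hEL1 (by norm_num)
      have h8 : (Real.exp L ^ 2 + 1) * Real.exp L = Real.exp L ^ 3 + Real.exp L := by ring
      linarith
    have h9 : (1 : ℝ) ≤ Real.exp L ^ 3 := one_le_pow₀ hEL1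
    have h10 : 169 * Real.exp L ^ 3 ≤ Real.exp L * Real.exp L ^ 3 := by
      apply mul_le_mul_of_nonneg_right _ (by positivity)
      linarith
    have h11 : Real.exp L * Real.exp L ^ 3 = Real.exp L ^ 4 := by ring
    linarith
  have herr : (56 * N + 1 : ℝ) ^ k * 2 ^ (k + k ^ 2) * κ ≤ Real.exp (-L) := by
    have h5 : (56 * N + 1 : ℝ) ^ k ≤ Real.exp (16 * L ^ 2) := by
      calc (56 * N + 1 : ℝ) ^ k ≤ (Real.exp (4 * L)) ^ k := by gcongr
        _ = Real.exp (k * (4 * L)) := (Real.exp_nat_mul _ _).symm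
        _ ≤ Real.exp (16 * L ^ 2) := by
            apply Real.exp_le_exp.2
            nlinarith
    have h6 : (2 : ℝ) ^ (k + k ^ 2) ≤ Real.exp (17 * L ^ 2) := by
      calc (2 : ℝ) ^ (k + k ^ 2) ≤ (Real.exp 1) ^ (k + k ^ 2) := by
            apply pow_le_pow_left₀ (by norm_num)
            have := Real.add_one_le_exp (1 : ℝ)
            linarith
        _ = Real.exp ((k + k ^ 2 : ℕ) * 1) := (Real.exp_nat_mul _ _).symm
        _ ≤ Real.exp (17 * L ^ 2) := by
            apply Real.exp_le_exp.2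
            push_cast
            nlinarith
    have h7 : C ≤ Real.exp L := by linarith
    calc (56 * N + 1 : ℝ) ^ k * 2 ^ (k + k ^ 2) * κ ≤
          Real.exp (16 * L ^ 2) * Real.exp (17 * L ^ 2) * (Real.exp L * Real.exp (-(L ^ 3) / 24)) := by
            rw [hκ]
            gcongr
      _ = Real.exp (16 * L ^ 2 + 17 * L ^ 2 + (L + -(L ^ 3) / 24)) := by
            rw [← Real.exp_add, ← Real.exp_add, ← Real.exp_add]
      _ ≤ Real.exp (-L) := by
            apply Real.exp_le_exp.2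
            nlinarith
  have hexpneg : Real.exp (-L) = (Real.exp L)⁻¹ := Real.exp_neg L
  have hcut : (k : ℝ) / H ≤ Real.exp (-L) := by
    rw [hexpneg, div_le_iff₀ hHR, ← div_eq_inv_mul, le_div_iff₀ (Real.exp_pos _)]
    refine le_trans ?_ hH1
    rw [hE2, pow_two]
    apply mul_le_mul_of_nonneg_right _ (Real.exp_pos _).le
    linarith
  have hcoll : (1 + Real.log X) / H ≤ 2 * Real.exp (-L) := by
    rw [hlX, hexpneg, div_le_iff₀ hHR]
    calc 1 + Real.exp L ≤ 2 * Real.exp L := by linarith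
      _ = 2 * (Real.exp L)⁻¹ * Real.exp (2 * L) := by
          rw [hE2]
          field_simp
      _ ≤ 2 * (Real.exp L)⁻¹ * H := by gcongr
  have hone : 1 ≤ X * Real.exp (-L) := by
    have h5 : Real.exp L ≤ X := by
      rw [← Real.le_log_iff_exp_le hXpos, hlX]
      linarith
    rw [hexpneg, ← div_eq_mul_inv, le_div_iff₀ (Real.exp_pos _)]
    linarith
  set T : ℝ := Real.exp (-(3 / 8) * L - 4 * Real.log L) with hT
  have hTE : 2 * Real.exp (-L) ≤ T := by
    have h5 : 2 ≤ Real.exp (L / 2) := by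
      have := Real.add_one_le_exp (L / 2)
      linarith
    calc 2 * Real.exp (-L) ≤ Real.exp (L / 2) * Real.exp (-L) := by gcongr
      _ = Real.exp (L / 2 + -L) := (Real.exp_add _ _).symm
      _ ≤ T := by
          apply Real.exp_le_exp.2
          linarith
  have hmain : 20 * T ≤ c * Real.exp (-(3 / 8) * L - 7 / 2 * Real.log L) := by
    have h5 : Real.exp (-(3 / 8) * L - 7 / 2 * Real.log L) = T * Real.exp (Real.log L / 2) := by
      rw [hT, ← Real.exp_add]
      congr 1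
      ring
    have h6 : Real.exp (Real.log L / 2) = Real.sqrt L := by
      rw [Real.sqrt_eq_rpow, Real.rpow_def_of_pos hL0]
      congr 1
      ring
    have h7 : 20 / c ≤ Real.sqrt L := Real.le_sqrt_of_sq_le hLc
    rw [h5, h6]
    rw [div_le_iff₀ hc] at h7
    have hT0 : 0 ≤ T := (Real.exp_pos _).le
    nlinarith
  have hm2 : 20 * T * X ≤ c * X * Real.exp (-(3 / 8) * L - 7 / 2 * Real.log L) := by
    calc 20 * T * X ≤ c * Real.exp (-(3 / 8) * L - 7 / 2 * Real.log L) * X := by gcongr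
      _ = _ := by ring
  have e1 : (56 * N + 1 : ℝ) ^ k * 2 ^ (k + k ^ 2) * (κ * X) ≤ Real.exp (-L) * X := by
    calc _ = (56 * N + 1 : ℝ) ^ k * 2 ^ (k + k ^ 2) * κ * X := by ring
      _ ≤ _ := by gcongr
  have e2 : (X : ℝ) * k / H ≤ X * Real.exp (-L) := by
    rw [mul_div_assoc]
    gcongr
  have e3 : 4 * (X : ℝ) * (1 + Real.log X) / H ≤ 4 * X * (2 * Real.exp (-L)) := by
    rw [mul_div_assoc]
    gcongr
  have e4 : X * (2 * Real.exp (-L)) ≤ X * T := by gcongr
  have hXT : 0 ≤ X * T := by positivity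
  nlinarith

/-- **Theorem.** -/
theorem ns_low : ∀ᶠ X : ℕ in atTop, ∀ (f : ℕ → ZMod 2) (e : ℕ), e < 2 →
    (X : ℝ) / (Real.log X ^ (3 / 8 : ℝ) * Real.log (Real.log X) ^ 4) ≤ ((NS f X e).card : ℝ) := by
  have ht : Tendsto (fun X : ℕ => Real.log (Real.log (X : ℝ))) atTop atTop :=
    Real.tendsto_log_atTop.comp (Real.tendsto_log_atTop.comp tendsto_natCast_atTop_atTop)
  filter_upwards [ht.eventually ns_exp, ht.eventually (eventually_ge_atTop (1 : ℝ))]
    with X hX hX1 f e he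
  refine le_trans (le_of_eq ?_) (hX f X e rfl he)
  have h0 : 0 < Real.log (X : ℝ) := by
    have h0 : 0 ≤ Real.log (X : ℝ) := Real.log_natCast_nonneg X
    rcases h0.lt_or_eq with h | h
    · exact h
    · rw [← h, Real.log_zero] at hX1
      linarith
  have hL0 : 0 < Real.log (Real.log (X : ℝ)) := by linarith
  rw [show -(3 / 8) * Real.log (Real.log (X : ℝ)) - 4 * Real.log (Real.log (Real.log (X : ℝ))) =
    -(3 / 8 * Real.log (Real.log (X : ℝ)) + 4 * Real.log (Real.log (Real.log (X : ℝ)))) by ring,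
    Real.exp_neg, Real.exp_add, div_eq_mul_inv]
  congr 3
  · rw [Real.rpow_def_of_pos h0]
    congr 1
    ring
  · rw [show (4 : ℝ) * Real.log (Real.log (Real.log (X : ℝ))) =
      ((4 : ℕ) : ℝ) * Real.log (Real.log (Real.log (X : ℝ))) by push_cast; rfl,
      Real.exp_nat_mul, Real.exp_log hL0]

end Pool.Agent.NH5.GC
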