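import Pool.Agent.NH5.GC.Fin
import Pool.Agent.NH5.GD.Equiv

/-!
# The sets with a nonsingular matrix and the descent
-/

set_option autoImplicit false
set_option linter.style.haveILetI false

open scoped Classical

namespace Pool.Agent.NH5.GC

open Finset
open Pool.Agent.NH5.GD
open Pool.Agent.Y703.CQ (nr)

theorem sq_m7 {p : ℕ} (hp : p.Prime) (h2 : p ≠ 2) (h7 : p ≠ 7) :
    IsSquare (-7 : ZMod p) ↔ (p % 7 = 1 ∨ p % 7 = 2 ∨ p % 7 = 4) := by
  haveI : Fact p.Prime := ⟨hp⟩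
  haveI : Fact (Nat.Prime 7) := ⟨by norm_num⟩
  have h := q2_st (p := p) (q := 7) h2 (by norm_num) h7
  rw [show (st 7 : ZMod p) = (-7 : ZMod p) by
    rw [show st 7 = -7 by unfold st; norm_num]; push_cast; rfl] at h
  have h1 : IsSquare (-7 : ZMod p) ↔ IsSquare ((p : ℕ) : ZMod 7) := by
    rw [← q2_eq_zero, h, q2_eq_zero]
  rw [h1, ← ZMod.natCast_mod]
  have h5 : p % 7 ≠ 0 := by
    intro h0
    exact h7 ((Nat.prime_dvd_prime_iff_eq (by norm_num) hp).1 (Nat.dvd_of_mod_eq_zero h0)).symm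
  exact Pool.Agent.Y687.sq7 (p % 7) (Nat.mod_lt _ (by norm_num)) h5

theorem sq_2 {p : ℕ} (hp : p.Prime) (h2 : p ≠ 2) :
    IsSquare (2 : ZMod p) ↔ (p % 8 = 1 ∨ p % 8 = 7) := by
  haveI : Fact p.Prime := ⟨hp⟩
  exact ZMod.exists_sq_eq_two_iff h2

/-- the class of the roots of `x ^ 2 + 13 x + 128` modulo `p` -/
noncomputable def ff (p : ℕ) : ZMod 2 :=
  if ∃ r : ZMod p, r ^ 2 + 13 * r + 128 = 0 ∧ IsSquare r then 0 else 1

/-- the sign -/
def sgn (e : ℕ) : ℤ := if e = 0 then 1 else -1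

/-- the discriminant of a set -/
noncomputable def DD (e : ℕ) (S : Finset ℕ) : ℤ := sgn e * ((∏ p ∈ S, p : ℕ) : ℤ)

theorem natAbs_DD (e : ℕ) (S : Finset ℕ) : (DD e S).natAbs = ∏ p ∈ S, p := by
  unfold DD sgn
  split_ifs
  · rw [one_mul]; rfl
  · rw [neg_one_mul, Int.natAbs_neg]; rfl

theorem prod_mod8 (S : Finset ℕ) (h : ∀ p ∈ S, p % 8 = 1 ∨ p % 8 = 3 ∨ p % 8 = 5) :
    ((S.filter fun p => p % 8 = 5).card % 2 = 0 → (S.filter fun p => p % 8 = 3).card % 2 = 0 →
      (∏ p ∈ S, p) % 8 = 1) ∧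
    ((S.filter fun p => p % 8 = 5).card % 2 = 0 → (S.filter fun p => p % 8 = 3).card % 2 = 1 →
      (∏ p ∈ S, p) % 8 = 3) ∧
    ((S.filter fun p => p % 8 = 5).card % 2 = 1 → (S.filter fun p => p % 8 = 3).card % 2 = 0 →
      (∏ p ∈ S, p) % 8 = 5) ∧
    ((S.filter fun p => p % 8 = 5).card % 2 = 1 → (S.filter fun p => p % 8 = 3).card % 2 = 1 →
      (∏ p ∈ S, p) % 8 = 7) := by
  induction S using Finset.induction_on with
  | empty => simp
  | insert a s ha ih =>
    have ih := ih fun p hp => h p (mem_insert_of_mem hp)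
    have h1 := h a (mem_insert_self a s)
    rw [prod_insert ha, Nat.mul_mod, card_ins ha, card_ins ha]
    obtain ⟨i1, i2, i3, i4⟩ := ih
    set x := (s.filter fun p => p % 8 = 5).card with hx
    set y := (s.filter fun p => p % 8 = 3).card with hy
    have hxx : x % 2 = 0 ∨ x % 2 = 1 := by omega
    have hyy : y % 2 = 0 ∨ y % 2 = 1 := by omega
    rcases h1 with h1 | h1 | h1 <;> rw [h1] <;> simp only [Nat.reduceEqDiff, if_true, if_false] <;>
    rcases hxx with hxx | hxx <;> rcases hyy with hyy | hyy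
    all_goals
      first
        | (have q := i1 hxx hyy; rw [q]; omega)
        | (have q := i2 hxx hyy; rw [q]; omega)
        | (have q := i3 hxx hyy; rw [q]; omega)
        | (have q := i4 hxx hyy; rw [q]; omega)

theorem DD_mod {e : ℕ} (he : e < 2) {S : Finset ℕ} (hcl : Cl0 e S) :
    (∏ p ∈ S, p) % 8 = (if e = 0 then 1 else 3) := by
  obtain ⟨h1, -, h3, h4, -⟩ := hcl
  have h := prod_mod8 S (by
    intro p hp
    have := h1 p hp
    unfold tyS tyA tyB tyI at this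
    omega)
  split_ifs with h0
  · exact h.1 h3 (by omega)
  · exact h.2.1 h3 (by omega)

theorem adm_DD {e : ℕ} (he : e < 2) {S : Finset ℕ} (hpr : ∀ p ∈ S, p.Prime) (hcl : Cl0 e S) :
    Adm (DD e S) where
  sqf := by
    rw [← Int.squarefree_natAbs, natAbs_DD]
    apply Finset.squarefree_prod_of_pairwise_isCoprime
    · intro p hp q hq hpq
      exact Nat.coprime_iff_isRelPrime.1 ((Nat.coprime_primes (hpr p hp) (hpr q hq)).2 hpq)
    · intro p hp
      exact (hpr p hp).squarefree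
  m4 := by
    have h := DD_mod he hcl
    unfold DD sgn
    split_ifs at h ⊢ with h0
    · omega
    · omega
  n7 := by
    intro h
    have h1 : (7 : ℤ).natAbs ∣ (DD e S).natAbs := Int.natAbs_dvd_natAbs.2 h
    rw [natAbs_DD] at h1
    obtain ⟨q, hq, h7q⟩ := (Nat.Prime.prime (by norm_num : Nat.Prime 7)).exists_mem_finset_dvd h1
    have h2 := (Nat.prime_dvd_prime_iff_eq (by norm_num) (hpr q hq)).1 h7q
    have h3 := hcl.1 q hq
    unfold tyS tyA tyB tyI at h3
    omega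

end Pool.Agent.NH5.GC
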