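import Pool.Agent.NH5.GC.Box
import Pool.Agent.Y703.CQ.Key

/-!
# The sum over the boxes
-/

set_option autoImplicit false

open scoped Classical

namespace Pool.Agent.NH5.GC

open Finset
open Pool.Agent.Y703.CX (jj XX)
open Pool.Agent.Y703.CQ (prs nr HB S_EQ S_BIL sg)
open Pool.Agent.Y703.CQ.K302 (le_XX card_sub)

/-- the code of a prime: the block and the class modulo `56` -/
noncomputable def cd (H p : ℕ) : ℕ := 56 * jj H p + p % 56

theorem cd_div (H p : ℕ) : cd H p / 56 = jj H p := by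
  unfold cd; omega

theorem cd_mod (H p : ℕ) : cd H p % 56 = p % 56 := by
  unfold cd; omega

theorem ty_mod {a b : ℕ} (h : a % 56 = b % 56) : a % 8 = b % 8 ∧ a % 7 = b % 7 := by omega

theorem tyS_cd (H p : ℕ) : tyS (cd H p) ↔ tyS p := by
  unfold tyS; have := ty_mod (cd_mod H p); rw [this.1, this.2]

theorem tyA_cd (H p : ℕ) : tyA (cd H p) ↔ tyA p := by
  unfold tyA; have := ty_mod (cd_mod H p); rw [this.1, this.2]

theorem tyB_cd (H p : ℕ) : tyB (cd H p) ↔ tyB p := by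
  unfold tyB; have := ty_mod (cd_mod H p); rw [this.1, this.2]

theorem tyI_cd (H p : ℕ) : tyI (cd H p) ↔ tyI p := by
  unfold tyI; have := ty_mod (cd_mod H p); rw [this.1, this.2]

/-- the class, in terms of the residues modulo `56` -/
def Cl0 (e : ℕ) (S : Finset ℕ) : Prop :=
  (∀ p ∈ S, tyS p ∨ tyA p ∨ tyB p ∨ tyI p) ∧ (S.filter tyA).card = (S.filter tyB).card ∧
    (S.filter fun p => p % 8 = 5).card % 2 = 0 ∧ (S.filter fun p => p % 8 = 3).card % 2 = e ∧
    ∃ p ∈ S, tyI p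

/-- the regular sets -/
noncomputable def RG (X z H k e : ℕ) : Finset (Finset ℕ) :=
  (range (X + 1)).powerset.filter fun S => (∀ p ∈ S, p.Prime ∧ z < p) ∧ Cl0 e S ∧
    Set.InjOn (jj H) (S : Set ℕ) ∧ S.card ≤ k ∧ ∏ p ∈ S, XX H (jj H p) ≤ X

/-- the sets of codes -/
def RJ (X H k e : ℕ) (J : Finset ℕ) : Prop :=
  Cl0 e J ∧ Set.InjOn (fun i => i / 56) (J : Set ℕ) ∧ J.card ≤ k ∧ ∏ i ∈ J, XX H (i / 56) ≤ X

/-- the primes with a code -/
noncomputable def CC (X z H i : ℕ) : Finset ℕ :=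
  (range (X + 1)).filter fun p => p.Prime ∧ z < p ∧ cd H p = i

theorem mem_CC {X z H i p : ℕ} : p ∈ CC X z H i ↔ p ≤ X ∧ p.Prime ∧ z < p ∧ cd H p = i := by
  unfold CC
  rw [mem_filter, mem_range, Nat.lt_succ_iff]

theorem inj_cd {H : ℕ} {S : Finset ℕ} (h : Set.InjOn (jj H) (S : Set ℕ)) :
    Set.InjOn (cd H) (S : Set ℕ) := by
  intro a ha b hb hab
  apply h ha hb
  rw [← cd_div H a, ← cd_div H b, hab]

theorem cl0_image {H e : ℕ} {S : Finset ℕ} (h : Set.InjOn (cd H) (S : Set ℕ)) :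
    Cl0 e (S.image (cd H)) ↔ Cl0 e S := by
  have h1 : ∀ (P : ℕ → Prop), (∀ p, P (cd H p) ↔ P p) →
      ((S.image (cd H)).filter P).card = (S.filter P).card := by
    intro P hP
    rw [Finset.filter_image, Finset.card_image_of_injOn]
    · congr 1
      ext p
      simp only [mem_filter, hP]
    · intro a ha b hb hab
      exact h (mem_coe.2 (mem_filter.1 (mem_coe.1 ha)).1)
        (mem_coe.2 (mem_filter.1 (mem_coe.1 hb)).1) hab
  have m8 : ∀ p, cd H p % 8 = p % 8 := fun p => (ty_mod (cd_mod H p)).1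
  have h8 : ∀ c, ((S.image (cd H)).filter fun p => p % 8 = c).card =
      (S.filter fun p => p % 8 = c).card := by
    intro c
    rw [Finset.filter_image, Finset.card_image_of_injOn]
    · congr 1
      ext p
      simp only [mem_filter, m8]
    · intro a ha b hb hab
      exact h (mem_coe.2 (mem_filter.1 (mem_coe.1 ha)).1)
        (mem_coe.2 (mem_filter.1 (mem_coe.1 hb)).1) hab
  unfold Cl0
  rw [h1 _ (tyA_cd H), h1 _ (tyB_cd H), h8 5, h8 3]
  refine and_congr ?_ (and_congr Iff.rfl (and_congr Iff.rfl (and_congr Iff.rfl ?_)))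
  · simp only [Finset.forall_mem_image, tyS_cd, tyA_cd, tyB_cd, tyI_cd]
  · simp only [Finset.exists_mem_image, tyI_cd]

theorem rg_iff {X z H k e : ℕ} {S : Finset ℕ} (hS : ∀ p ∈ S, p ≤ X ∧ p.Prime ∧ z < p)
    (hi : Set.InjOn (cd H) (S : Set ℕ)) : S ∈ RG X z H k e ↔ RJ X H k e (S.image (cd H)) := by
  unfold RG RJ
  rw [mem_filter, mem_powerset, cl0_image hi, Finset.card_image_of_injOn hi, Finset.prod_image hi]
  simp only [cd_div]
  have h1 : Set.InjOn (jj H) (S : Set ℕ) ↔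
      Set.InjOn (fun i => i / 56) ((S.image (cd H) : Finset ℕ) : Set ℕ) := by
    constructor
    · intro h a ha b hb hab
      rw [mem_coe, mem_image] at ha hb
      obtain ⟨p, hp, rfl⟩ := ha
      obtain ⟨q, hq, rfl⟩ := hb
      simp only [cd_div] at hab
      rw [h (mem_coe.2 hp) (mem_coe.2 hq) hab]
    · intro h p hp q hq hpq
      refine hi hp hq (h (mem_coe.2 (mem_image_of_mem _ (mem_coe.1 hp)))
        (mem_coe.2 (mem_image_of_mem _ (mem_coe.1 hq))) ?_)
      simp only [cd_div]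
      exact hpq
  rw [h1]
  constructor
  · rintro ⟨-, -, h2⟩
    exact h2
  · intro h2
    exact ⟨fun p hp => mem_range.2 (Nat.lt_succ_iff.2 (hS p hp).1), fun p hp => (hS p hp).2, h2⟩

/-- the fibre of a set of codes -/
theorem fib_card {X z H k e : ℕ} {J : Finset ℕ} (hJ : RJ X H k e J) (T : Finset ℕ → Prop) :
    ((RG X z H k e).filter fun S => S.image (cd H) = J ∧ T S).card =
      ((Fintype.piFinset fun i : J => CC X z H i).filter fun p => T (univ.image p)).card := by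
  symm
  refine Finset.card_bij (fun p _ => univ.image p) ?_ ?_ ?_
  · intro p hp
    rw [mem_filter, Fintype.mem_piFinset] at hp
    obtain ⟨h1, h2⟩ := hp
    have h3 : ∀ i, cd H (p i) = i := fun i => (mem_CC.1 (h1 i)).2.2.2
    have him : (univ.image p).image (cd H) = J := by
      ext i
      rw [mem_image]
      constructor
      · rintro ⟨q, hq, rfl⟩
        obtain ⟨j, -, rfl⟩ := mem_image.1 hq
        rw [h3]
        exact j.2
      · intro hi
        exact ⟨p ⟨i, hi⟩, mem_image_of_mem _ (mem_univ _), h3 ⟨i, hi⟩⟩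
    have hinj : Set.InjOn (cd H) ((univ.image p : Finset ℕ) : Set ℕ) := by
      intro a ha b hb hab
      obtain ⟨i, -, rfl⟩ := mem_image.1 (mem_coe.1 ha)
      obtain ⟨j, -, rfl⟩ := mem_image.1 (mem_coe.1 hb)
      rw [h3, h3] at hab
      rw [Subtype.ext hab]
    rw [mem_filter]
    refine ⟨?_, him, h2⟩
    rw [rg_iff _ hinj, him]
    · exact hJ
    · intro q hq
      obtain ⟨i, -, rfl⟩ := mem_image.1 hq
      have := mem_CC.1 (h1 i)
      exact ⟨this.1, this.2.1, this.2.2.1⟩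
  · intro p hp p' hp' hpp
    rw [mem_filter, Fintype.mem_piFinset] at hp hp'
    funext i
    have h1 : p i ∈ univ.image p' := by
      rw [← hpp]
      exact mem_image_of_mem _ (mem_univ _)
    obtain ⟨j, -, hj⟩ := mem_image.1 h1
    have h2 := (mem_CC.1 (hp.1 i)).2.2.2
    have h3 := (mem_CC.1 (hp'.1 j)).2.2.2
    rw [hj, h2] at h3
    rw [← hj, Subtype.ext h3]
  · intro S hS
    rw [mem_filter] at hS
    obtain ⟨h1, h2, h3⟩ := hS
    have h1' := h1
    unfold RG at h1'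
    rw [mem_filter, mem_powerset] at h1'
    obtain ⟨g1, g2, g3, g4, -⟩ := h1'
    have hex : ∀ i : J, ∃ q ∈ S, cd H q = i := by
      intro i
      have : (i : ℕ) ∈ S.image (cd H) := by rw [h2]; exact i.2
      exact mem_image.1 this
    choose p hp1 hp2 using hex
    have him : univ.image p = S := by
      ext q
      rw [mem_image]
      constructor
      · rintro ⟨i, -, rfl⟩
        exact hp1 i
      · intro hq
        have h4 : cd H q ∈ J := by
          rw [← h2]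
          exact mem_image_of_mem _ hq
        refine ⟨⟨cd H q, h4⟩, mem_univ _, ?_⟩
        exact inj_cd g4 (mem_coe.2 (hp1 _)) (mem_coe.2 hq) (hp2 _)
    refine ⟨p, ?_, him⟩
    rw [mem_filter, Fintype.mem_piFinset]
    refine ⟨fun i => mem_CC.2 ?_, by rw [him]; exact h3⟩
    have h4 := g1 (hp1 i)
    rw [mem_range, Nat.lt_succ_iff] at h4
    exact ⟨h4, (g2 _ (hp1 i)).1, (g2 _ (hp1 i)).2, hp2 i⟩

/-- the bilinear hypothesis -/
theorem hb_box {C₁ : ℝ} (h1 : ∀ (P Q : Finset ℕ) (A B z : ℕ) (c d : ℕ → ℂ),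
    (∀ p ∈ P, p.Prime ∧ p % 8 = 1 ∧ p ≤ A) → (∀ q ∈ Q, q.Prime ∧ q ≠ 2 ∧ q ≤ B) →
    Disjoint P Q → 1 ≤ z → z ≤ A → z ≤ B → (∀ p, ‖c p‖ ≤ 1) → (∀ q, ‖d q‖ ≤ 1) →
    ‖∑ p ∈ P, ∑ q ∈ Q, c p * d q * sg (nr p q)‖ ^ 12 * z ≤ C₁ * ((A : ℝ) * B) ^ 12)
    {X z H : ℕ} {J : Finset ℕ} {κ : ℝ} (hz : 2 ≤ z) (hH : 1 ≤ H) (hκ : 0 ≤ κ)
    (hκz : C₁ ≤ κ ^ 12 * z) {J1 : Finset J} (hJ1 : ∀ i ∈ J1, (i : ℕ) % 8 = 1) :
    HB J1 (fun i : J => CC X z H i) (fun i : J => XX H (i / 56)) κ := by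
  intro i l hil hi c d hc hd
  have hpos : (0 : ℝ) ≤ κ * ((XX H (i / 56) : ℝ) * (XX H (l / 56) : ℝ)) := by positivity
  have hle : ∀ (j : J), ∀ p ∈ CC X z H j, p ≤ XX H (j / 56) ∧ z ≤ XX H (j / 56) := by
    intro j p hp
    obtain ⟨-, h2, h3, h4⟩ := mem_CC.1 hp
    have h5 := le_XX hH h2.one_le
    rw [← cd_div H p, h4] at h5
    exact ⟨h5, by omega⟩
  beta_reduce
  rcases (CC X z H i).eq_empty_or_nonempty with he | ⟨p0, hp0⟩
  · rw [he, Finset.sum_empty, norm_zero]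
    exact hpos
  rcases (CC X z H l).eq_empty_or_nonempty with he | ⟨q0, hq0⟩
  · rw [he]
    simp only [Finset.sum_empty, Finset.sum_const_zero, norm_zero]
    exact hpos
  have h2 := h1 (CC X z H i) (CC X z H l) (XX H (i / 56)) (XX H (l / 56)) z c d (by
      intro p hp
      obtain ⟨-, h2, h3, h4⟩ := mem_CC.1 hp
      refine ⟨h2, ?_, (hle i p hp).1⟩
      have h5 := (ty_mod (cd_mod H p)).1
      rw [← h5, h4]
      exact hJ1 i hi) (by
      intro p hp
      obtain ⟨-, h2, h3, h4⟩ := mem_CC.1 hp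
      exact ⟨h2, by omega, (hle l p hp).1⟩) (by
      rw [Finset.disjoint_left]
      intro p hp hp'
      apply hil
      apply Subtype.ext
      rw [← (mem_CC.1 hp).2.2.2, (mem_CC.1 hp').2.2.2]) (by omega) (hle i p0 hp0).2 (hle l q0 hq0).2
      hc hd
  have hz0 : (0 : ℝ) < z := by exact_mod_cast (by omega : 0 < z)
  set A : ℝ := (XX H (i / 56) : ℝ)
  set B : ℝ := (XX H (l / 56) : ℝ)
  have h3 : ‖∑ x ∈ CC X z H i, ∑ y ∈ CC X z H l, c x * d y * sg (nr x y)‖ ^ 12 * z ≤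
      (κ * (A * B)) ^ 12 * z := by
    refine h2.trans ?_
    rw [mul_pow κ]
    calc C₁ * (A * B) ^ 12 ≤ (κ ^ 12 * z) * (A * B) ^ 12 :=
          mul_le_mul_of_nonneg_right hκz (by positivity)
      _ = _ := by ring
  exact le_of_pow_le_pow_left₀ (by norm_num) hpos (le_of_mul_le_mul_right h3 hz0)

/-- one set of codes -/
theorem per_key (hEQ : S_EQ) {C₁ : ℝ} (h1 : ∀ (P Q : Finset ℕ) (A B z : ℕ) (c d : ℕ → ℂ),
    (∀ p ∈ P, p.Prime ∧ p % 8 = 1 ∧ p ≤ A) → (∀ q ∈ Q, q.Prime ∧ q ≠ 2 ∧ q ≤ B) →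
    Disjoint P Q → 1 ≤ z → z ≤ A → z ≤ B → (∀ p, ‖c p‖ ≤ 1) → (∀ q, ‖d q‖ ≤ 1) →
    ‖∑ p ∈ P, ∑ q ∈ Q, c p * d q * sg (nr p q)‖ ^ 12 * z ≤ C₁ * ((A : ℝ) * B) ^ 12)
    (f : ℕ → ZMod 2) {X z H k e : ℕ} {J : Finset ℕ} {κ : ℝ} (hz : 2 ≤ z) (hH : 1 ≤ H) (hκ : 0 ≤ κ)
    (hκz : C₁ ≤ κ ^ 12 * z) (hJ : RJ X H k e J) :
    (1 / 10 : ℝ) * (((RG X z H k e).filter fun S => S.image (cd H) = J).card : ℝ) -
      2 ^ (k + k ^ 2) * (κ * X) ≤
      (((RG X z H k e).filter fun S => S.image (cd H) = J ∧ GdS f S).card : ℝ) := by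
  have hf := fib_card (z := z) hJ (fun _ => True)
  simp only [and_true, Finset.filter_true] at hf
  rw [hf, fib_card hJ]
  obtain ⟨⟨c1, c2, -, -, c5⟩, hJi, hJk, hJX⟩ := hJ
  set tS : Finset J := univ.filter fun i => tyS i with htS
  set tA : Finset J := univ.filter fun i => tyA i with htA
  set tB : Finset J := univ.filter fun i => tyB i with htB
  have mS : ∀ i : J, i ∈ tS ↔ tyS i := fun i => by rw [htS, mem_filter]; simp
  have mA : ∀ i : J, i ∈ tA ↔ tyA i := fun i => by rw [htA, mem_filter]; simp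
  have mB : ∀ i : J, i ∈ tB ↔ tyB i := fun i => by rw [htB, mem_filter]; simp
  have hcard : ∀ P : ℕ → Prop, (univ.filter fun i : J => P i).card = (J.filter P).card := by
    intro P
    rw [← Finset.card_map (Function.Embedding.subtype _)]
    congr 1
    ext i
    simp only [mem_map, mem_filter, mem_univ, true_and, Function.Embedding.subtype_apply,
      Subtype.exists, exists_and_left, exists_prop, exists_eq_right_right]
    tauto
  have hcJ : Fintype.card J ≤ k := by rw [Fintype.card_coe]; exact hJk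
  have h2 := box_low hEQ f (tS := tS) (tA := tA) (tB := tB) (by
      rw [Finset.disjoint_left]
      intro i h3 h4
      have h3 := (mS i).1 h3
      have h4 := (mA i).1 h4
      unfold tyS at h3; unfold tyA at h4; omega) (by
      rw [Finset.disjoint_left]
      intro i h3 h4
      have h3 := (mS i).1 h3
      have h4 := (mB i).1 h4
      unfold tyS at h3; unfold tyB at h4; omega) (by
      rw [Finset.disjoint_left]
      intro i h3 h4
      have h3 := (mA i).1 h3
      have h4 := (mB i).1 h4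
      unfold tyA at h3; unfold tyB at h4; omega) (by
      rw [htA, htB, hcard tyA, hcard tyB]
      exact c2) (by
      obtain ⟨i, hi, hiI⟩ := c5
      refine ⟨⟨i, hi⟩, ?_, ?_, ?_⟩
      · rw [mS]; unfold tyS; unfold tyI at hiI; simp only; omega
      · rw [mA]; unfold tyA; unfold tyI at hiI; simp only; omega
      · rw [mB]; unfold tyB; unfold tyI at hiI; simp only; omega)
      (C := fun i : J => CC X z H i) (X := fun i : J => XX H (i / 56)) hκ (by
      intro i
      have : CC X z H i ⊆ Icc 1 (XX H (i / 56)) := by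
        intro p hp
        obtain ⟨-, h2, h3, h4⟩ := mem_CC.1 hp
        have h5 := le_XX hH h2.one_le
        rw [← cd_div H p, h4] at h5
        exact mem_Icc.2 ⟨h2.one_le, h5⟩
      refine (Finset.card_le_card this).trans ?_
      rw [Nat.card_Icc]
      omega) (hb_box h1 hz hH hκ hκz (by
      intro i hi
      rcases mem_union.1 hi with h | h
      · exact ((mS i).1 h).1
      · exact ((mA i).1 h).1)) (by
      intro i p hp
      obtain ⟨-, h2, h3, h4⟩ := mem_CC.1 hp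
      have h5 : tyS p ↔ i ∈ tS := by rw [mS, ← h4, tyS_cd]
      have h6 : tyA p ↔ i ∈ tA := by rw [mA, ← h4, tyA_cd]
      have h7 : tyB p ↔ i ∈ tB := by rw [mB, ← h4, tyB_cd]
      refine ⟨h2, by omega, h5, h6, h7, ?_⟩
      rw [mem_union, ← h5, ← h6]
      have h8 := c1 i i.2
      rw [← h4, tyS_cd, tyA_cd, tyB_cd, tyI_cd] at h8
      unfold tyS tyA tyB tyI at h8
      unfold tyS tyA
      omega) (by
      intro i l hil
      rw [Finset.disjoint_left]
      intro p hp hp'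
      apply hil
      apply Subtype.ext
      rw [← (mem_CC.1 hp).2.2.2, (mem_CC.1 hp').2.2.2])
  refine le_trans ?_ h2
  have h3 : ∏ j : J, (XX H ((j : ℕ) / 56) : ℝ) ≤ X := by
    rw [Finset.prod_coe_sort J (fun j => (XX H (j / 56) : ℝ))]
    exact_mod_cast hJX
  have h4 : (2 : ℝ) ^ (Fintype.card J + (prs (tS ∪ tA)).card) ≤ 2 ^ (k + k ^ 2) := by
    apply pow_le_pow_right₀ (by norm_num)
    have h5 : (prs (tS ∪ tA)).card ≤ k ^ 2 := by
      refine (Finset.card_le_univ _).trans ?_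
      rw [Fintype.card_prod, pow_two]
      exact Nat.mul_le_mul hcJ hcJ
    omega
  have h5 : (2 : ℝ) ^ (Fintype.card J + (prs (tS ∪ tA)).card) *
      (κ * ∏ j : J, (XX H ((j : ℕ) / 56) : ℝ)) ≤ 2 ^ (k + k ^ 2) * (κ * X) := by
    have h0 : (0 : ℝ) ≤ ∏ j : J, (XX H ((j : ℕ) / 56) : ℝ) :=
      Finset.prod_nonneg fun _ _ => Nat.cast_nonneg _
    gcongr
  exact sub_le_sub_left h5 _

/-- **the sum over the boxes** -/
theorem key_low (hEQ : S_EQ) (hB : S_BIL) : ∃ C : ℝ, 1 ≤ C ∧ ∀ (f : ℕ → ZMod 2)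
    (X z H k e N : ℕ) (κ : ℝ), 1 ≤ X → 1 ≤ H → 2 ≤ z → 0 ≤ κ → C ≤ κ ^ 12 * z →
    (H : ℝ) * Real.log X < N →
    (1 / 10 : ℝ) * ((RG X z H k e).card : ℝ) -
      (56 * N + 1 : ℝ) ^ k * 2 ^ (k + k ^ 2) * (κ * X) ≤
      (((RG X z H k e).filter fun S => GdS f S).card : ℝ) := by
  obtain ⟨C₁, hC₁, h1⟩ := hB
  refine ⟨C₁, hC₁, ?_⟩
  intro f X z H k e N κ hX hH hz hκ hκz hN
  set T := (RG X z H k e).image fun S => S.image (cd H) with hT
  have hfib : ∀ (P : Finset ℕ → Prop), (((RG X z H k e).filter fun S => P S).card : ℝ) =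
      ∑ J ∈ T, (((RG X z H k e).filter fun S => S.image (cd H) = J ∧ P S).card : ℝ) := by
    intro P
    rw [Finset.card_eq_sum_card_fiberwise (f := fun S => S.image (cd H)) (t := T) (by
      intro S hS
      rw [Finset.mem_coe, Finset.mem_filter] at hS
      exact Finset.mem_coe.2 (Finset.mem_image_of_mem _ hS.1))]
    push_cast
    refine Finset.sum_congr rfl fun e _ => ?_
    congr 2
    ext S
    simp only [Finset.mem_filter]
    tauto
  have hmem : ∀ S ∈ RG X z H k e, RJ X H k e (S.image (cd H)) ∧ ∀ p ∈ S, p ≤ X ∧ p.Prime := by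
    intro S hS
    have hS' := hS
    unfold RG at hS'
    rw [mem_filter, mem_powerset] at hS'
    obtain ⟨g1, g2, g3, g4, -⟩ := hS'
    have h2 : ∀ p ∈ S, p ≤ X ∧ p.Prime ∧ z < p := fun p hp =>
      ⟨Nat.lt_succ_iff.1 (mem_range.1 (g1 hp)), g2 p hp⟩
    exact ⟨(rg_iff h2 (inj_cd g4)).1 hS, fun p hp => ⟨(h2 p hp).1, (h2 p hp).2.1⟩⟩
  have hRJ : ∀ J ∈ T, RJ X H k e J := by
    intro J hJ
    rw [hT, Finset.mem_image] at hJ
    obtain ⟨S, hS, rfl⟩ := hJ
    exact (hmem S hS).1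
  have hf3 := hfib fun _ => True
  simp only [and_true, Finset.filter_true] at hf3
  rw [hfib fun S => GdS f S, hf3, Finset.mul_sum]
  have h3 := Finset.sum_le_sum fun J (hJ : J ∈ T) => per_key hEQ h1 f hz hH hκ hκz (hRJ J hJ)
  rw [Finset.sum_sub_distrib, Finset.sum_const, nsmul_eq_mul] at h3
  have hsub : T ⊆ (range (56 * N)).powerset.filter fun J => J.card ≤ k := by
    intro J hJ
    have hk' := hRJ J hJ
    rw [hT, Finset.mem_image] at hJ
    obtain ⟨S, hS, rfl⟩ := hJ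
    rw [Finset.mem_filter, Finset.mem_powerset]
    refine ⟨?_, hk'.2.2.1⟩
    intro i hi
    obtain ⟨q, hq, rfl⟩ := mem_image.1 hi
    obtain ⟨hqX, hqp⟩ := (hmem S hS).2 q hq
    rw [Finset.mem_range]
    have h3 : ((jj H q : ℕ) : ℝ) < N := by
      refine lt_of_le_of_lt (Nat.floor_le (mul_nonneg (Nat.cast_nonneg _)
        (Real.log_nonneg (by exact_mod_cast hqp.one_le)))) ?_
      refine lt_of_le_of_lt ?_ hN
      refine mul_le_mul_of_nonneg_left ?_ (Nat.cast_nonneg _)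
      exact Real.log_le_log (by exact_mod_cast hqp.pos) (by exact_mod_cast hqX)
    have h4 : jj H q < N := by exact_mod_cast h3
    unfold cd
    omega
  have h4 : ((T.card : ℕ) : ℝ) ≤ (56 * N + 1 : ℝ) ^ k := by
    have h5 := (Finset.card_le_card hsub).trans (card_sub (range (56 * N)) k)
    rw [Finset.card_range] at h5
    exact_mod_cast h5
  have h5 : (T.card : ℝ) * (2 ^ (k + k ^ 2) * (κ * X)) ≤
      (56 * N + 1 : ℝ) ^ k * 2 ^ (k + k ^ 2) * (κ * X) := by
    rw [mul_assoc]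
    exact mul_le_mul_of_nonneg_right h4 (by positivity)
  linarith

end Pool.Agent.NH5.GC
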