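import Pool.Agent.Y219.CQ.LA
import Pool.Agent.Y839.CQ.SYM

/-!
# Random structured matrices over `𝔽₂` are nonsingular with probability at least `1/10`
-/

set_option autoImplicit false

open scoped Classical

namespace Pool.Agent.NH5.GC

open Finset Matrix Pool.Agent.Y219.CQ
open Pool.Agent.Y703.CQ (prs)

/-! ### two counts -/

theorem card_symm (s : Type) [Fintype s] [DecidableEq s] :
    Nat.card {M : Matrix s s (ZMod 2) // M.IsSymm} = 2 ^ (Fintype.card s * (Fintype.card s + 1) / 2) := by
  have e1 : {M : Matrix s s (ZMod 2) // M.IsSymm} ≃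
      {f : s → s → ZMod 2 // ∀ a b, f a b = f b a} :=
    (Equiv.refl _).subtypeEquiv fun M => by
      constructor
      · intro h a b
        exact (h.apply b a)
      · intro h
        exact Matrix.IsSymm.ext fun i j => h j i
  rw [Nat.card_congr (e1.trans Sym2.lift), Nat.card_eq_fintype_card, Fintype.card_fun, Sym2.card,
    ZMod.card, Nat.choose_two_right, Nat.add_sub_cancel, Nat.mul_comm]

theorem prod_low (n : ℕ) : (2 / 5 : ℝ) ≤ ∏ i ∈ range n, (1 - (1 / 2 : ℝ) ^ (2 * i + 1)) := by
  have key : ∀ n : ℕ, (2 / 5 : ℝ) + 8 / 25 * (1 / 4) ^ n ≤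
      ∏ i ∈ range n, (1 - (1 / 2 : ℝ) ^ (2 * i + 1)) := by
    intro n
    induction n with
    | zero => norm_num
    | succ n ih =>
      rw [Finset.prod_range_succ]
      rcases n with _ | n
      · norm_num
      · have e : (1 / 2 : ℝ) ^ (2 * (n + 1) + 1) = (1 / 4) ^ (n + 1) / 2 := by
          rw [pow_succ, pow_mul]
          norm_num
          ring
        have h0 : (0 : ℝ) < (1 / 4) ^ (n + 1) := by positivity
        have h1 : (1 / 4 : ℝ) ^ (n + 1) ≤ 1 / 4 := by
          have : (1 / 4 : ℝ) ^ (n + 1) ≤ (1 / 4) ^ 1 :=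
            pow_le_pow_of_le_one (by norm_num) (by norm_num) (by omega)
          simpa using this
        rw [e]
        have h2 : (0 : ℝ) ≤ 1 - (1 / 4) ^ (n + 1) / 2 := by linarith
        refine le_trans ?_ (mul_le_mul_of_nonneg_right ih h2)
        rw [pow_succ (1 / 4 : ℝ) (n + 1)]
        generalize (1 / 4 : ℝ) ^ (n + 1) = x at h0 h1
        nlinarith
  refine le_trans ?_ (key n)
  have : (0 : ℝ) ≤ 8 / 25 * (1 / 4) ^ n := by positivity
  linarith

theorem symm_low (s : Type) [Fintype s] [DecidableEq s] :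
    (2 / 5 : ℝ) * (Nat.card {M : Matrix s s (ZMod 2) // M.IsSymm} : ℝ) ≤
      (Nat.card {M : Matrix s s (ZMod 2) // M.IsSymm ∧ M.det ≠ 0} : ℝ) := by
  rw [card_symm, Pool.Agent.Y839.CQ.sym_card]
  push_cast
  rw [mul_comm]
  exact mul_le_mul_of_nonneg_left (prod_low _) (by positivity)

theorem gl_prod (n : ℕ) : (1 / 4 : ℝ) * 2 ^ (n * n) ≤ ∏ i : Fin n, ((2 : ℝ) ^ n - 2 ^ (i : ℕ)) := by
  have key : ∀ n : ℕ, (1 / 4 : ℝ) + (1 / 2) ^ (n + 1) ≤ ∏ i ∈ range n, (1 - (1 / 2 : ℝ) ^ (i + 1)) ∨
      n = 0 := by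
    intro n
    induction n with
    | zero => right; rfl
    | succ n ih =>
      left
      rw [Finset.prod_range_succ]
      rcases ih with ih | ih
      · rcases Nat.eq_zero_or_pos n with h | h
        · subst h; norm_num
        · have h1 : (1 / 2 : ℝ) ^ (n + 1) ≤ 1 / 4 := by
            have : (1 / 2 : ℝ) ^ (n + 1) ≤ (1 / 2) ^ 2 :=
              pow_le_pow_of_le_one (by norm_num) (by norm_num) (by omega)
            refine this.trans (by norm_num)
          have h0 : (0 : ℝ) < (1 / 2) ^ (n + 1) := by positivity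
          refine le_trans ?_ (mul_le_mul_of_nonneg_right ih (by linarith))
          rw [pow_succ (1 / 2 : ℝ) (n + 1)]
          generalize (1 / 2 : ℝ) ^ (n + 1) = x at h0 h1
          nlinarith
      · subst ih; norm_num
  have e1 : ∏ i : Fin n, ((2 : ℝ) ^ n - 2 ^ (i : ℕ)) = 2 ^ (n * n) *
      ∏ i ∈ range n, (1 - (1 / 2 : ℝ) ^ (i + 1)) := by
    have e0 : (2 : ℝ) ^ (n * n) = ∏ _i ∈ range n, (2 : ℝ) ^ n := by
      rw [Finset.prod_const, Finset.card_range, ← pow_mul]
    rw [Fin.prod_univ_eq_prod_range (fun i => (2 : ℝ) ^ n - 2 ^ i) n, ← Finset.prod_range_reflect,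
      e0, ← Finset.prod_mul_distrib]
    refine Finset.prod_congr rfl fun i hi => ?_
    rw [Finset.mem_range] at hi
    rw [mul_sub, mul_one]
    congr 1
    rw [one_div, inv_pow, ← div_eq_mul_inv, eq_div_iff (by positivity), ← pow_add]
    congr 1
    omega
  rw [e1, mul_comm]
  refine mul_le_mul_of_nonneg_left ?_ (by positivity)
  rcases key n with h | h
  · refine le_trans ?_ h
    have : (0 : ℝ) ≤ (1 / 2) ^ (n + 1) := by positivity
    linarith
  · subst h; norm_num

/-- matrices with trivial kernel -/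
def Tk {a b : Type} [Fintype b] (W : Matrix a b (ZMod 2)) : Prop := ∀ y, W *ᵥ y = 0 → y = 0

theorem gl_low (a b : Type) [Fintype a] [Fintype b] (h : Fintype.card a = Fintype.card b) :
    (1 / 4 : ℝ) * (Nat.card (Matrix a b (ZMod 2)) : ℝ) ≤
      (Nat.card {W : Matrix a b (ZMod 2) // Tk W} : ℝ) := by
  have : Fact (Nat.Prime 2) := ⟨Nat.prime_two⟩
  obtain ⟨n, hn⟩ : ∃ n, n = Fintype.card a := ⟨_, rfl⟩
  have e1 : a ≃ Fin n := Fintype.equivFinOfCardEq hn.symm
  have e2 : b ≃ Fin n := Fintype.equivFinOfCardEq (h ▸ hn).symm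
  have h1 : Nat.card {W : Matrix a b (ZMod 2) // Tk W} =
      Nat.card {W : Matrix (Fin n) (Fin n) (ZMod 2) // W.det ≠ 0} := by
    refine Nat.card_congr ((Matrix.reindex e1 e2).subtypeEquiv fun W => ?_)
    rw [← Pool.Agent.Y839.CQ.ns_iff]
    unfold Tk Pool.Agent.Y839.CQ.Ns
    constructor
    · intro h y hy
      have h2 : W *ᵥ (y ∘ e2) = 0 := by
        funext i
        have h3 := congrFun hy (e1 i)
        simp only [Matrix.reindex_apply, Matrix.mulVec, dotProduct, Matrix.submatrix_apply,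
          Equiv.symm_apply_apply, Pi.zero_apply] at h3 ⊢
        rw [← h3]
        exact Fintype.sum_equiv e2 _ _ fun j => by simp
      have h4 := h _ h2
      funext j
      have h5 := congrFun h4 (e2.symm j)
      simpa using h5
    · intro h y hy
      have h2 : (Matrix.reindex e1 e2 W) *ᵥ (y ∘ e2.symm) = 0 := by
        funext i
        have h3 := congrFun hy (e1.symm i)
        simp only [Matrix.reindex_apply, Matrix.mulVec, dotProduct, Matrix.submatrix_apply,
          Pi.zero_apply] at h3 ⊢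
        rw [← h3]
        exact Fintype.sum_equiv e2.symm _ _ fun j => by simp
      have h4 := h _ h2
      funext j
      have h5 := congrFun h4 (e2 j)
      simpa using h5
  have h2 : Nat.card {W : Matrix (Fin n) (Fin n) (ZMod 2) // W.det ≠ 0} =
      Nat.card (GL (Fin n) (ZMod 2)) := by
    refine Nat.card_congr ⟨fun W => Matrix.GeneralLinearGroup.mkOfDetNeZero W.1 W.2,
      fun g => ⟨g.1, g.det.ne_zero⟩, ?_, ?_⟩
    · intro W
      rfl
    · intro g
      ext
      rfl
  have h3 := Matrix.card_GL_field (𝔽 := ZMod 2) n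
  rw [h1, h2, h3, ZMod.card]
  have h4 : Nat.card (Matrix a b (ZMod 2)) = 2 ^ (n * n) := by
    rw [Nat.card_eq_fintype_card, Fintype.card_congr (Matrix.reindex e1 e2)]
    have : Fintype.card (Matrix (Fin n) (Fin n) (ZMod 2)) =
      Fintype.card (Fin n → Fin n → ZMod 2) := rfl
    rw [this, Fintype.card_fun, Fintype.card_fun, Fintype.card_fin, ZMod.card, ← pow_mul]
  rw [h4]
  have h5 := gl_prod n
  push_cast
  refine h5.trans (le_of_eq ?_)
  refine Finset.prod_congr rfl fun i _ => ?_
  rw [Nat.cast_sub (Nat.pow_le_pow_right (by norm_num) i.2.le)]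
  push_cast
  rfl

/-- **averaging** -/
theorem average {G T : Type} [Fintype G] [AddCommGroup G] [Fintype T] [Nonempty T] (j : T → G)
    (P : G → Prop) (c : ℝ) (h : ∀ α : G, c * (Fintype.card T : ℝ) ≤
      ((univ.filter fun t : T => P (α + j t)).card : ℝ)) :
    c * (Fintype.card G : ℝ) ≤ ((univ.filter P).card : ℝ) := by
  have e1 : ∑ α : G, ((univ.filter fun t : T => P (α + j t)).card : ℝ) =
      (Fintype.card T : ℝ) * ((univ.filter P).card : ℝ) := by
    have e2 : ∀ α : G, ((univ.filter fun t : T => P (α + j t)).card : ℝ) =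
        ∑ t : T, if P (α + j t) then (1 : ℝ) else 0 := by
      intro α
      rw [Finset.sum_boole]
    simp only [e2]
    rw [Finset.sum_comm]
    have e3 : ∀ t : T, ∑ α : G, (if P (α + j t) then (1 : ℝ) else 0) =
        ((univ.filter P).card : ℝ) := by
      intro t
      rw [← Finset.sum_boole]
      exact Fintype.sum_equiv (Equiv.addRight (j t)) _ _ fun α => rfl
    rw [Finset.sum_congr rfl fun t _ => e3 t, Finset.sum_const, nsmul_eq_mul, Finset.card_univ]
  have h2 : ∑ _α : G, c * (Fintype.card T : ℝ) ≤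
      ∑ α : G, ((univ.filter fun t : T => P (α + j t)).card : ℝ) := Finset.sum_le_sum fun α _ => h α
  rw [e1, Finset.sum_const, nsmul_eq_mul, Finset.card_univ] at h2
  have hT : (0 : ℝ) < Fintype.card T := by exact_mod_cast Fintype.card_pos
  have h3 : (Fintype.card T : ℝ) * (c * (Fintype.card G : ℝ)) ≤
      (Fintype.card T : ℝ) * ((univ.filter P).card : ℝ) := by linarith
  exact le_of_mul_le_mul_left h3 hT

end Pool.Agent.NH5.GC
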