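import Pool.Agent.NH5.GC.LA

/-!
# Random structured matrices over `𝔽₂`: the system of a tuple of primes
-/

set_option autoImplicit false

open scoped Classical

namespace Pool.Agent.NH5.GC

open Finset Matrix Pool.Agent.Y219.CQ
open Pool.Agent.Y703.CQ (prs)

variable {ι : Type} [Fintype ι] [LinearOrder ι]

/-- the system has only the zero solution -/
def GS (tS tA tB : Finset ι) (α : prs (tS ∪ tA) → ZMod 2) (g : ι → ZMod 2) : Prop :=
  ∀ x : ι → ZMod 2, (∀ i, i ∉ tS → i ∉ tB → x i = 0) →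
    (∀ k ∈ tS, ∑ l, Pool.Agent.Y703.CQ.ext α k l * (x l + x k) + g k * x k = 0) →
    (∀ k ∈ tA, ∑ l, Pool.Agent.Y703.CQ.ext α k l * x l = 0) → ∀ i, x i = 0

/-- the symmetric block -/
noncomputable def mS (tS tA : Finset ι) (α : prs (tS ∪ tA) → ZMod 2) (g : ι → ZMod 2) :
    Matrix tS tS (ZMod 2) := Matrix.of fun k l =>
  Pool.Agent.Y703.CQ.ext α k l + if k = l then g k + ∑ j, Pool.Agent.Y703.CQ.ext α k j else 0

/-- the other blocks -/
noncomputable def mR (tS tA : Finset ι) (r c : Finset ι) (α : prs (tS ∪ tA) → ZMod 2) :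
    Matrix r c (ZMod 2) := Matrix.of fun k l => Pool.Agent.Y703.CQ.ext α k l

theorem c2 (a : ZMod 2) : a + a = 0 := CharTwo.add_self_eq_zero a

theorem split_sum {tS tB : Finset ι} (hd : Disjoint tS tB) (f x : ι → ZMod 2)
    (hx : ∀ i, i ∉ tS → i ∉ tB → x i = 0) :
    ∑ l, f l * x l = ∑ l : tS, f l * x l + ∑ l : tB, f l * x l := by
  rw [Finset.sum_coe_sort tS (fun l => f l * x l), Finset.sum_coe_sort tB (fun l => f l * x l),
    ← Finset.sum_union hd]
  symm
  refine Finset.sum_subset (Finset.subset_univ _) fun l _ hl => ?_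
  rw [Finset.mem_union, not_or] at hl
  rw [hx l hl.1 hl.2, mul_zero]

theorem gs_of {tS tA tB : Finset ι} (hd : Disjoint tS tB) {α : prs (tS ∪ tA) → ZMod 2}
    {g : ι → ZMod 2} (h1 : (mS tS tA α g).det ≠ 0)
    (h2 : Tk (mR tS tA tA tB α + mR tS tA tA tS α * (mS tS tA α g)⁻¹ * mR tS tA tS tB α)) :
    GS tS tA tB α g := by
  intro x hx hS hA
  obtain ⟨u, hu⟩ : ∃ u : tS → ZMod 2, u = fun k : tS => x k := ⟨_, rfl⟩
  obtain ⟨y, hy⟩ : ∃ y : tB → ZMod 2, y = fun k : tB => x k := ⟨_, rfl⟩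
  have e1 : mS tS tA α g *ᵥ u = mR tS tA tS tB α *ᵥ y := by
    funext k
    have h3 := hS k k.2
    have h4 : ∑ l, Pool.Agent.Y703.CQ.ext α k l * (x l + x k) + g k * x k =
        (∑ l : tS, Pool.Agent.Y703.CQ.ext α k l * x l + ∑ l : tB, Pool.Agent.Y703.CQ.ext α k l * x l) +
          (g k + ∑ l, Pool.Agent.Y703.CQ.ext α k l) * x k := by
      rw [← split_sum hd _ x hx]
      simp only [mul_add]
      rw [Finset.sum_add_distrib, ← Finset.sum_mul]
      ring
    rw [h4] at h3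
    have h5 : (mS tS tA α g *ᵥ u) k = ∑ l : tS, Pool.Agent.Y703.CQ.ext α k l * x l +
        (g k + ∑ l, Pool.Agent.Y703.CQ.ext α k l) * x k := by
      unfold mS Matrix.mulVec dotProduct
      simp only [Matrix.of_apply]
      simp only [add_mul]
      rw [Finset.sum_add_distrib, hu]
      congr 1
      rw [Finset.sum_eq_single k]
      · rw [if_pos rfl, add_mul]
      · intro l _ hl
        rw [if_neg (Ne.symm hl), zero_mul]
      · intro h
        exact absurd (Finset.mem_univ k) h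
    have h6 : (mR tS tA tS tB α *ᵥ y) k = ∑ l : tB, Pool.Agent.Y703.CQ.ext α k l * x l := by
      unfold mR Matrix.mulVec dotProduct
      simp only [Matrix.of_apply]
      rw [hy]
    rw [h5, h6]
    have : ∀ a b c : ZMod 2, a + b + c = 0 → a + c = b := by decide
    exact this _ _ _ h3
  have e2 : mR tS tA tA tS α *ᵥ u = mR tS tA tA tB α *ᵥ y := by
    funext k
    have h3 := hA k k.2
    rw [split_sum hd _ x hx] at h3
    have h5 : (mR tS tA tA tS α *ᵥ u) k = ∑ l : tS, Pool.Agent.Y703.CQ.ext α k l * x l := by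
      unfold mR Matrix.mulVec dotProduct
      simp only [Matrix.of_apply]
      rw [hu]
    have h6 : (mR tS tA tA tB α *ᵥ y) k = ∑ l : tB, Pool.Agent.Y703.CQ.ext α k l * x l := by
      unfold mR Matrix.mulVec dotProduct
      simp only [Matrix.of_apply]
      rw [hy]
    rw [h5, h6]
    have : ∀ a b : ZMod 2, a + b = 0 → a = b := by decide
    exact this _ _ h3
  have e3 : u = (mS tS tA α g)⁻¹ *ᵥ (mR tS tA tS tB α *ᵥ y) := by
    rw [← e1, Matrix.mulVec_mulVec, Matrix.nonsing_inv_mul _ (isUnit_iff_ne_zero.2 h1),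
      Matrix.one_mulVec]
  have e4 : y = 0 := by
    refine h2 y ?_
    rw [Matrix.add_mulVec, ← Matrix.mulVec_mulVec, ← Matrix.mulVec_mulVec, ← e3, e2]
    funext k
    exact c2 _
  have e5 : u = 0 := by
    rw [e3, e4, Matrix.mulVec_zero, Matrix.mulVec_zero]
  intro i
  by_cases h : i ∈ tS
  · have := congrFun e5 ⟨i, h⟩
    rw [hu] at this
    exact this
  · by_cases h' : i ∈ tB
    · have := congrFun e4 ⟨i, h'⟩
      rw [hy] at this
      exact this
    · exact hx i h h'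

/-- the shift -/
noncomputable def jm (tS tA tB : Finset ι) (i0 : ι) (τ : Matrix tS tS (ZMod 2))
    (W : Matrix tA tB (ZMod 2)) : prs (tS ∪ tA) → ZMod 2 := fun e =>
  if hk : e.1.1 ∈ tS then
    (if hl : e.1.2 ∈ tS then τ ⟨e.1.1, hk⟩ ⟨e.1.2, hl⟩
      else if e.1.2 = i0 then ∑ l', τ ⟨e.1.1, hk⟩ l' else 0)
  else if h : e.1.1 ∈ tA ∧ e.1.2 ∈ tB then W ⟨e.1.1, h.1⟩ ⟨e.1.2, h.2⟩ else 0

section shift

variable {tS tA tB : Finset ι} {i0 : ι} (hSA : Disjoint tS tA) (hSB : Disjoint tS tB)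
  (hAB : Disjoint tA tB) (h0 : i0 ∉ tS ∧ i0 ∉ tA ∧ i0 ∉ tB) {τ : Matrix tS tS (ZMod 2)}
  (hτ : τ.IsSymm) (W : Matrix tA tB (ZMod 2))

include hτ in
theorem jm_SS {k l : ι} (hk : k ∈ tS) (hl : l ∈ tS) (hkl : k ≠ l) :
    Pool.Agent.Y703.CQ.ext (jm tS tA tB i0 τ W) k l = τ ⟨k, hk⟩ ⟨l, hl⟩ := by
  rcases lt_or_gt_of_ne hkl with h | h
  · have h1 : (k, l) ∈ prs (tS ∪ tA) :=
      (mem_prs _ k l).2 ⟨mem_union_left _ hk, hkl.symm, fun _ => h⟩
    rw [ext_pos _ _ h1]
    unfold jm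
    rw [dif_pos hk, dif_pos hl]
  · have h1 : (l, k) ∈ prs (tS ∪ tA) :=
      (mem_prs _ l k).2 ⟨mem_union_left _ hl, hkl, fun _ => h⟩
    rw [ext_neg _ _ h1 (mem_union_left _ hk)]
    unfold jm
    rw [dif_pos hl, dif_pos hk]
    exact hτ.apply ⟨k, hk⟩ ⟨l, hl⟩

include h0 in
theorem jm_S0 {k : ι} (hk : k ∈ tS) :
    Pool.Agent.Y703.CQ.ext (jm tS tA tB i0 τ W) k i0 = ∑ l', τ ⟨k, hk⟩ l' := by
  have h1 : (k, i0) ∈ prs (tS ∪ tA) := (mem_prs _ k i0).2 ⟨mem_union_left _ hk,
    fun h => h0.1 (h ▸ hk), fun h => by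
      rcases mem_union.1 h with h | h
      · exact absurd h h0.1
      · exact absurd h h0.2.1⟩
  rw [ext_pos _ _ h1]
  unfold jm
  rw [dif_pos hk, dif_neg h0.1, if_pos rfl]

include hSB in
theorem jm_other {k l : ι} (hk : k ∈ tS) (hl : l ∉ tS) (hl0 : l ≠ i0) :
    Pool.Agent.Y703.CQ.ext (jm tS tA tB i0 τ W) k l = 0 := by
  have hkl : k ≠ l := fun h => hl (h ▸ hk)
  by_cases h : (k, l) ∈ prs (tS ∪ tA)
  · rw [ext_pos _ _ h]
    unfold jm
    rw [dif_pos hk, dif_neg hl, if_neg hl0]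
  · by_cases h' : (l, k) ∈ prs (tS ∪ tA)
    · rw [ext_neg _ _ h' (mem_union_left _ hk)]
      unfold jm
      rw [dif_neg hl, dif_neg]
      rintro ⟨-, h2⟩
      exact Finset.disjoint_left.1 hSB hk h2
    · unfold Pool.Agent.Y703.CQ.ext
      rw [dif_neg h, dif_neg fun h2 => h' h2.1]

include hSA hSB h0 in
theorem jm_AS {k l : ι} (hk : k ∈ tA) (hl : l ∈ tS) :
    Pool.Agent.Y703.CQ.ext (jm tS tA tB i0 τ W) k l = 0 := by
  have hkS : k ∉ tS := fun h => Finset.disjoint_left.1 hSA h hk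
  have hlB : l ∉ tB := fun h => Finset.disjoint_left.1 hSB hl h
  have hkl : k ≠ l := fun h => hkS (h ▸ hl)
  rcases lt_or_gt_of_ne hkl with h | h
  · have h1 : (k, l) ∈ prs (tS ∪ tA) :=
      (mem_prs _ k l).2 ⟨mem_union_right _ hk, hkl.symm, fun _ => h⟩
    rw [ext_pos _ _ h1]
    unfold jm
    rw [dif_neg hkS, dif_neg]
    rintro ⟨-, h2⟩
    exact hlB h2
  · have h1 : (l, k) ∈ prs (tS ∪ tA) :=
      (mem_prs _ l k).2 ⟨mem_union_left _ hl, hkl, fun _ => h⟩
    rw [ext_neg _ _ h1 (mem_union_right _ hk)]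
    unfold jm
    rw [dif_pos hl, dif_neg hkS]
    split_ifs with h3
    · have h4 : k = i0 := h3
      exact absurd hk (by rw [h4]; exact h0.2.1)
    · rfl

include hSA hAB in
theorem jm_AB {k l : ι} (hk : k ∈ tA) (hl : l ∈ tB) (hlS : l ∉ tS) :
    Pool.Agent.Y703.CQ.ext (jm tS tA tB i0 τ W) k l = W ⟨k, hk⟩ ⟨l, hl⟩ := by
  have hkS : k ∉ tS := fun h => Finset.disjoint_left.1 hSA h hk
  have hlA : l ∉ tA := fun h => Finset.disjoint_left.1 hAB h hl
  have h1 : (k, l) ∈ prs (tS ∪ tA) := (mem_prs _ k l).2 ⟨mem_union_right _ hk,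
    fun h => hlA (h ▸ hk), fun h => by
      rcases mem_union.1 h with h | h
      · exact absurd h hlS
      · exact absurd h hlA⟩
  rw [ext_pos _ _ h1]
  unfold jm
  rw [dif_neg hkS, dif_pos ⟨hk, hl⟩]

end shift

theorem mS_symm (tS tA : Finset ι) (α : prs (tS ∪ tA) → ZMod 2) (g : ι → ZMod 2) :
    (mS tS tA α g).IsSymm := by
  refine Matrix.IsSymm.ext fun k l => ?_
  unfold mS
  simp only [Matrix.of_apply]
  by_cases h : k = l
  · rw [h]
  · rw [if_neg h, if_neg (Ne.symm h),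
      ext_symm (tS ∪ tA) α (mem_union_left _ l.2) (mem_union_left _ k.2)]

section main

variable {tS tA tB : Finset ι} {i0 : ι} (hSA : Disjoint tS tA) (hSB : Disjoint tS tB)
  (hAB : Disjoint tA tB) (h0 : i0 ∉ tS ∧ i0 ∉ tA ∧ i0 ∉ tB) {τ : Matrix tS tS (ZMod 2)}
  (hτ : τ.IsSymm) (W : Matrix tA tB (ZMod 2)) (α : prs (tS ∪ tA) → ZMod 2) (g : ι → ZMod 2)

include hSB h0 hτ in
theorem mS_shift : mS tS tA (α + jm tS tA tB i0 τ W) g = mS tS tA α g + τ := by
  ext k l
  rw [Matrix.add_apply]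
  unfold mS
  simp only [Matrix.of_apply]
  by_cases h : k = l
  · subst h
    rw [if_pos rfl, if_pos rfl, ext_self, ext_self, zero_add, zero_add]
    simp only [ext_add]
    rw [Finset.sum_add_distrib]
    have hS := jm_S0 h0 (τ := τ) W k.2
    have hk0 : i0 ∉ tS := h0.1
    have e1 : ∑ j, Pool.Agent.Y703.CQ.ext (jm tS tA tB i0 τ W) k j = τ k k := by
      have e2 : ∑ j, Pool.Agent.Y703.CQ.ext (jm tS tA tB i0 τ W) k j =
          Pool.Agent.Y703.CQ.ext (jm tS tA tB i0 τ W) k i0 +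
            ∑ j ∈ tS, Pool.Agent.Y703.CQ.ext (jm tS tA tB i0 τ W) k j := by
        rw [← Finset.sum_insert hk0]
        symm
        refine Finset.sum_subset (Finset.subset_univ _) fun j _ hj => ?_
        rw [Finset.mem_insert, not_or] at hj
        exact jm_other hSB W k.2 hj.2 hj.1
      rw [e2, hS, ← Finset.sum_coe_sort tS]
      have e3 : ∑ j : tS, Pool.Agent.Y703.CQ.ext (jm tS tA tB i0 τ W) k j =
          ∑ j : tS, (τ k j + if j = k then τ k k else 0) := by
        refine Finset.sum_congr rfl fun j _ => ?_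
        by_cases hj : j = k
        · subst hj
          rw [if_pos rfl, ext_self, c2]
        · rw [if_neg hj, add_zero]
          exact jm_SS hτ W k.2 j.2 (fun h => hj (Subtype.ext h).symm)
      rw [e3, Finset.sum_add_distrib, Finset.sum_ite_eq' univ k, if_pos (Finset.mem_univ _),
        ← add_assoc, c2, zero_add]
    rw [e1, ← add_assoc]
  · rw [if_neg h, if_neg h, add_zero, add_zero, ext_add,
      jm_SS hτ W k.2 l.2 (fun h' => h (Subtype.ext h'))]

include hSB h0 in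
theorem mX_shift : mR tS tA tS tB (α + jm tS tA tB i0 τ W) = mR tS tA tS tB α := by
  ext k l
  unfold mR
  simp only [Matrix.of_apply]
  have h1 : (l : ι) ≠ i0 := fun h => h0.2.2 (by rw [← h]; exact l.2)
  rw [ext_add, jm_other hSB W k.2 (fun h => Finset.disjoint_left.1 hSB h l.2) h1, add_zero]

include hSA hSB h0 in
theorem mY_shift : mR tS tA tA tS (α + jm tS tA tB i0 τ W) = mR tS tA tA tS α := by
  ext k l
  unfold mR
  simp only [Matrix.of_apply]
  rw [ext_add, jm_AS hSA hSB h0 W k.2 l.2, add_zero]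

include hSA hSB hAB in
theorem mZ_shift : mR tS tA tA tB (α + jm tS tA tB i0 τ W) = mR tS tA tA tB α + W := by
  ext k l
  unfold mR
  simp only [Matrix.of_apply]
  rw [ext_add, jm_AB hSA hAB W k.2 l.2 (fun h => Finset.disjoint_left.1 hSB h l.2)]
  rfl

include hSA hSB hAB h0 in
/-- **at least one tenth of the systems are good** -/
theorem gs_low (hc : tA.card = tB.card) :
    (1 / 10 : ℝ) * (2 : ℝ) ^ (prs (tS ∪ tA)).card ≤
      ((univ.filter fun α : prs (tS ∪ tA) → ZMod 2 => GS tS tA tB α g).card : ℝ) := by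
  have hT : Nonempty ({τ : Matrix tS tS (ZMod 2) // τ.IsSymm} × Matrix tA tB (ZMod 2)) :=
    ⟨⟨⟨0, Matrix.isSymm_zero⟩, 0⟩⟩
  have e0 : ((2 : ℝ) ^ (prs (tS ∪ tA)).card) =
      (Fintype.card (prs (tS ∪ tA) → ZMod 2) : ℝ) := by
    rw [Fintype.card_fun, ZMod.card, Fintype.card_coe]
    push_cast
    rfl
  rw [e0]
  refine average (T := {τ : Matrix tS tS (ZMod 2) // τ.IsSymm} × Matrix tA tB (ZMod 2))
    (fun t => jm tS tA tB i0 t.1.1 t.2) (fun α => GS tS tA tB α g) (1 / 10) fun α => ?_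
  -- the number of good shifts
  have hs := symm_low tS
  have hg := gl_low tA tB (by rw [Fintype.card_coe, Fintype.card_coe]; exact hc)
  set N1 : ℝ := (Nat.card {M : Matrix tS tS (ZMod 2) // M.IsSymm ∧ M.det ≠ 0} : ℝ) with hN1
  set N2 : ℝ := (Nat.card {W : Matrix tA tB (ZMod 2) // Tk W} : ℝ) with hN2
  have hcard : (Fintype.card ({τ : Matrix tS tS (ZMod 2) // τ.IsSymm} × Matrix tA tB (ZMod 2)) : ℝ) =
      (Nat.card {M : Matrix tS tS (ZMod 2) // M.IsSymm} : ℝ) *
        (Nat.card (Matrix tA tB (ZMod 2)) : ℝ) := by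
    rw [Fintype.card_prod, Nat.card_eq_fintype_card, Nat.card_eq_fintype_card]
    push_cast
    rfl
  have hlow : N1 * N2 ≤ ((univ.filter fun t : {τ : Matrix tS tS (ZMod 2) // τ.IsSymm} ×
      Matrix tA tB (ZMod 2) => GS tS tA tB (α + jm tS tA tB i0 t.1.1 t.2) g).card : ℝ) := by
    rw [← Finset.sum_boole, Fintype.sum_prod_type]
    have h1 : ∀ τ : {τ : Matrix tS tS (ZMod 2) // τ.IsSymm},
        (if (mS tS tA α g + τ.1).det ≠ 0 then N2 else 0) ≤
        ∑ W : Matrix tA tB (ZMod 2),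
          if GS tS tA tB (α + jm tS tA tB i0 τ.1 W) g then (1 : ℝ) else 0 := by
      intro τ
      split_ifs with hdet
      · obtain ⟨c, hcd⟩ : ∃ c : Matrix tA tB (ZMod 2), c = mR tS tA tA tB α +
          mR tS tA tA tS α * (mS tS tA α g + τ.1)⁻¹ * mR tS tA tS tB α := ⟨_, rfl⟩
        have h2 : N2 = ∑ W : Matrix tA tB (ZMod 2), if Tk (W + c) then (1 : ℝ) else 0 := by
          have h3 : ∑ W : Matrix tA tB (ZMod 2), (if Tk (W + c) then (1 : ℝ) else 0) =
              ∑ W : Matrix tA tB (ZMod 2), if Tk W then (1 : ℝ) else 0 :=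
            Fintype.sum_equiv (Equiv.addRight c) _ _ fun W => rfl
          rw [h3, Finset.sum_boole, hN2, Nat.card_eq_fintype_card, Fintype.card_subtype]
        rw [h2]
        refine Finset.sum_le_sum fun W _ => ?_
        by_cases hTk : Tk (W + c)
        · rw [if_pos hTk, if_pos]
          refine gs_of hSB ?_ ?_
          · rw [mS_shift hSB h0 τ.2]
            exact hdet
          · rw [mS_shift hSB h0 τ.2, mX_shift hSB h0, mY_shift hSA hSB h0, mZ_shift hSA hSB hAB]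
            have e5 : mR tS tA tA tB α + W + mR tS tA tA tS α * (mS tS tA α g + τ.1)⁻¹ *
                mR tS tA tS tB α = W + c := by
              rw [hcd]
              abel
            rw [e5]
            exact hTk
        · rw [if_neg hTk]
          split_ifs <;> norm_num
      · exact Finset.sum_nonneg fun W _ => by split_ifs <;> norm_num
    refine le_trans ?_ (Finset.sum_le_sum fun τ _ => h1 τ)
    rw [← Finset.sum_filter, Finset.sum_const, nsmul_eq_mul]
    refine le_of_eq ?_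
    congr 1
    rw [hN1, Nat.card_eq_fintype_card]
    have h4 : Fintype.card {M : Matrix tS tS (ZMod 2) // M.IsSymm ∧ M.det ≠ 0} =
        Fintype.card {τ : {τ : Matrix tS tS (ZMod 2) // τ.IsSymm} //
          (mS tS tA α g + τ.1).det ≠ 0} := by
      refine Fintype.card_congr ⟨fun M => ⟨⟨mS tS tA α g + M.1, ?_⟩, ?_⟩,
        fun τ => ⟨mS tS tA α g + τ.1.1, ?_, τ.2⟩, ?_, ?_⟩
      · exact (mS_symm tS tA α g).add M.2.1
      · have : mS tS tA α g + (mS tS tA α g + M.1) = M.1 := by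
          ext i j
          simp only [Matrix.add_apply]
          rw [← add_assoc, c2, zero_add]
        rw [this]
        exact M.2.2
      · exact (mS_symm tS tA α g).add τ.1.2
      · intro M
        refine Subtype.ext ?_
        ext i j
        simp only [Matrix.add_apply]
        rw [← add_assoc, c2, zero_add]
      · intro τ
        refine Subtype.ext (Subtype.ext ?_)
        ext i j
        simp only [Matrix.add_apply]
        rw [← add_assoc, c2, zero_add]
    rw [h4, Fintype.card_subtype]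
  refine le_trans ?_ hlow
  rw [hcard]
  have p1 : (0 : ℝ) ≤ (Nat.card {M : Matrix tS tS (ZMod 2) // M.IsSymm} : ℝ) := Nat.cast_nonneg _
  have p2 : (0 : ℝ) ≤ (Nat.card (Matrix tA tB (ZMod 2)) : ℝ) := Nat.cast_nonneg _
  calc (1 / 10 : ℝ) * ((Nat.card {M : Matrix tS tS (ZMod 2) // M.IsSymm} : ℝ) *
        (Nat.card (Matrix tA tB (ZMod 2)) : ℝ)) =
      (2 / 5 * (Nat.card {M : Matrix tS tS (ZMod 2) // M.IsSymm} : ℝ)) *
        (1 / 4 * (Nat.card (Matrix tA tB (ZMod 2)) : ℝ)) := by ring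
    _ ≤ N1 * N2 := mul_le_mul hs hg (by positivity) (le_trans (by positivity) hs)

end main

end Pool.Agent.NH5.GC
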