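import Pool.Agent.NH5.GC.Key
import Pool.Agent.NH5.GC.Elem
import Pool.Agent.NH5.ABN.Mer
import Pool.Agent.Y302.CQ.LOW

/-!
# The lower bound for the number of the sets of the class
-/

set_option autoImplicit false

open scoped Classical

namespace Pool.Agent.NH5.GC

open Finset
open Pool.Agent.Y703.CX (jj XX)
open Pool.Agent.Y703.CQ.K302 (TT mem_TT)

/-- primes in an interval with a property -/
noncomputable def PI (c : ℕ → Prop) (a b : ℕ) : Finset ℕ :=
  (range (b + 1)).filter fun p => a < p ∧ p.Prime ∧ c p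

theorem mem_PI {c : ℕ → Prop} {a b p : ℕ} : p ∈ PI c a b ↔ p ≤ b ∧ a < p ∧ p.Prime ∧ c p := by
  unfold PI
  rw [mem_filter, mem_range, Nat.lt_succ_iff]

theorem one_le_prod {T : Finset ℕ} (h : ∀ p ∈ T, p.Prime) : 0 < ∏ p ∈ T, p :=
  prod_pos fun p hp => (h p hp).pos

/-- the large primes of a residue class -/
theorem card_LP (a : ℕ) (ha : Nat.Coprime a 56) (ha56 : a < 56) : ∃ (c : ℝ) (y₁ : ℕ), 0 < c ∧
    ∀ y X m : ℕ, y₁ ≤ y → y ^ 8 ≤ X → 0 < m → m ≤ y ^ 3 →
    c * (X / Real.log X) * (1 / m) ≤ ((PI (fun p => p % 56 = a) y (X / m)).card : ℝ) := by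
  obtain ⟨c, Y₀, hc, hche⟩ := Pool.Agent.Y302.CQ.t_CHE
  refine ⟨c / 4, max (max 5 Y₀) ⌈8 / c⌉₊, by positivity, ?_⟩
  intro y X m hyy hy1 hm hmy
  have hy5 : 5 ≤ y := ((le_max_left _ _).trans (le_max_left _ _)).trans hyy
  have hyY : Y₀ ≤ y := ((le_max_right _ _).trans (le_max_left _ _)).trans hyy
  have hyc : 8 / c ≤ (y : ℝ) := by
    have h1 : 8 / c ≤ (⌈8 / c⌉₊ : ℝ) := Nat.le_ceil _
    have h2 : ⌈8 / c⌉₊ ≤ y := (le_max_right _ _).trans hyy
    exact h1.trans (by exact_mod_cast h2)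
  have hyR : (5 : ℝ) ≤ y := by exact_mod_cast hy5
  obtain ⟨Y, hYdef⟩ : ∃ Y, Y = X / m := ⟨_, rfl⟩
  have hYy : y ^ 5 ≤ Y := by
    rw [hYdef, Nat.le_div_iff_mul_le hm]
    calc y ^ 5 * m ≤ y ^ 5 * y ^ 3 := Nat.mul_le_mul_left _ hmy
      _ = y ^ 8 := by ring
      _ ≤ X := hy1
  have hy6 : y ≤ y ^ 5 := Nat.le_self_pow (by norm_num) y
  have hY0 : Y₀ ≤ Y := by omega
  have hYX : Y ≤ X := by rw [hYdef]; exact Nat.div_le_self _ _
  have hY1 : (1 : ℝ) < (Y : ℝ) := by exact_mod_cast (show 1 < Y by omega)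
  have hlY : 0 < Real.log (Y : ℝ) := Real.log_pos hY1
  have hlYX : Real.log (Y : ℝ) ≤ Real.log X :=
    Real.log_le_log (by linarith) (by exact_mod_cast hYX)
  have hlogX : 0 < Real.log X := lt_of_lt_of_le hlY hlYX
  have h3 := hche Y hY0 a ha
  rw [Nat.mod_eq_of_lt ha56] at h3
  have h4 : ((range (Y + 1)).filter fun p => p.Prime ∧ p % 56 = a).card ≤
      (PI (fun p => p % 56 = a) y (X / m)).card + (y + 1) := by
    have h5 : ((range (Y + 1)).filter fun p => p.Prime ∧ p % 56 = a) ⊆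
        (PI (fun p => p % 56 = a) y (X / m)) ∪ range (y + 1) := by
      intro p hp
      rw [mem_filter, mem_range, Nat.lt_succ_iff] at hp
      rw [mem_union, mem_PI, mem_range, ← hYdef]
      by_cases h : y < p
      · exact Or.inl ⟨hp.1, h, hp.2⟩
      · right
        omega
    refine (Finset.card_le_card h5).trans ((Finset.card_union_le _ _).trans ?_)
    rw [Finset.card_range]
  have h4' : (((range (Y + 1)).filter fun p => p.Prime ∧ p % 56 = a).card : ℝ) ≤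
      ((PI (fun p => p % 56 = a) y (X / m)).card : ℝ) + ((y : ℝ) + 1) := by
    exact_mod_cast h4
  have h6 : (y : ℝ) + 1 ≤ c / 2 * (Y / Real.log Y) := by
    have hs0 : 0 < Real.sqrt (Y : ℝ) := Real.sqrt_pos.mpr (by linarith)
    have hs1 : (y : ℝ) ^ 2 ≤ Real.sqrt (Y : ℝ) := by
      apply Real.le_sqrt_of_sq_le
      have h7 : y ^ 4 ≤ Y := le_trans (Nat.pow_le_pow_right (by omega) (by norm_num)) hYy
      have : ((y : ℝ) ^ 2) ^ 2 = (y : ℝ) ^ 4 := by ring
      rw [this]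
      exact_mod_cast h7
    have hs2 : Real.sqrt (Y : ℝ) / 2 ≤ Y / Real.log Y := by
      rw [le_div_iff₀ hlY]
      have h7 := Pool.Agent.Y302.CQ.log_le_two_sqrt (show (0 : ℝ) < Y by linarith)
      calc Real.sqrt (Y : ℝ) / 2 * Real.log Y ≤ Real.sqrt (Y : ℝ) / 2 * (2 * Real.sqrt Y) :=
            mul_le_mul_of_nonneg_left h7 (by positivity)
        _ = Real.sqrt (Y : ℝ) * Real.sqrt Y := by ring
        _ = Y := Real.mul_self_sqrt (by linarith)
    have hs3 : 8 ≤ c * (y : ℝ) := by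
      rw [div_le_iff₀ hc] at hyc
      linarith
    calc (y : ℝ) + 1 ≤ 8 / 4 * y := by linarith
      _ ≤ c * y / 4 * y := by
          apply mul_le_mul_of_nonneg_right _ (by positivity)
          exact div_le_div_of_nonneg_right hs3 (by norm_num)
      _ = c / 2 * ((y : ℝ) ^ 2 / 2) := by ring
      _ ≤ c / 2 * (Real.sqrt Y / 2) := by
          apply mul_le_mul_of_nonneg_left _ (by positivity)
          exact div_le_div_of_nonneg_right hs1 (by norm_num)
      _ ≤ c / 2 * (Y / Real.log Y) := mul_le_mul_of_nonneg_left hs2 (by positivity)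
  have h7 : c / 2 * (Y / Real.log Y) ≤ ((PI (fun p => p % 56 = a) y (X / m)).card : ℝ) := by
    have h8 : c * Y / Real.log Y = c / 2 * (Y / Real.log Y) + c / 2 * (Y / Real.log Y) := by ring
    rw [h8] at h3
    linarith
  refine le_trans ?_ h7
  have hhalf : (X : ℝ) / (2 * m) ≤ (Y : ℝ) := by
    have h9 : X < m * Y + m := by
      rw [hYdef]
      have := Nat.div_add_mod X m
      have := Nat.mod_lt X hm
      omega
    have h10 : (X : ℝ) < m * (Y : ℝ) + m := by exact_mod_cast h9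
    have hm' : (0 : ℝ) < m := by exact_mod_cast hm
    rw [div_le_iff₀ (by positivity)]
    nlinarith
  have hm' : (0 : ℝ) < m := by exact_mod_cast hm
  calc c / 4 * (X / Real.log X) * ((1 : ℝ) / m) =
      c / 2 * (((X : ℝ) / (2 * m)) / Real.log X) := by
        field_simp
        ring
    _ ≤ c / 2 * ((Y : ℝ) / Real.log X) := by
        apply mul_le_mul_of_nonneg_left _ (by positivity)
        exact div_le_div_of_nonneg_right hhalf hlogX.le
    _ ≤ c / 2 * ((Y : ℝ) / Real.log Y) := by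
        apply mul_le_mul_of_nonneg_left _ (by positivity)
        apply div_le_div_of_nonneg_left (by positivity) hlY hlYX

/-- the sets of the class (without the conditions on the blocks) -/
noncomputable def BG (X z k e : ℕ) : Finset (Finset ℕ) :=
  (TT X).filter fun S => (∀ p ∈ S, z < p) ∧ Cl0 e S ∧ S.card ≤ k

/-- the balanced sets of primes between `z` and `y` -/
noncomputable def TF (z y K : ℕ) : Finset (Finset ℕ) :=
  (PI (fun p => tyS p ∨ tyA p ∨ tyB p ∨ tyI p) z y).powerset.filter fun T =>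
    (T.filter tyA).card = (T.filter tyB).card ∧ T.card ≤ K

theorem mem_TF {z y K : ℕ} {T : Finset ℕ} : T ∈ TF z y K ↔
    (∀ p ∈ T, p ≤ y ∧ z < p ∧ p.Prime ∧ (tyS p ∨ tyA p ∨ tyB p ∨ tyI p)) ∧
      (T.filter tyA).card = (T.filter tyB).card ∧ T.card ≤ K := by
  unfold TF
  rw [mem_filter, mem_powerset]
  refine and_congr ?_ Iff.rfl
  constructor
  · intro h p hp
    exact mem_PI.1 (h hp)
  · intro h p hp
    exact mem_PI.2 (h p hp)

theorem nAS {p : ℕ} (h : tyA p) : ¬ tyS p := by unfold tyA at h; unfold tyS; omega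
theorem nAB {p : ℕ} (h : tyA p) : ¬ tyB p := by unfold tyA at h; unfold tyB; omega
theorem nAI {p : ℕ} (h : tyA p) : ¬ tyI p := by unfold tyA at h; unfold tyI; omega
theorem nBS {p : ℕ} (h : tyB p) : ¬ tyS p := by unfold tyB at h; unfold tyS; omega
theorem nBI {p : ℕ} (h : tyB p) : ¬ tyI p := by unfold tyB at h; unfold tyI; omega

/-- **the sum over the balanced sets** -/
theorem TF_low (z y K1 K2 : ℕ) :
    (∑ j ∈ range (K2 + 1), Ej (fun p => 1 / (p : ℝ)) (PI tyA z y) j *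
      Ej (fun p => 1 / (p : ℝ)) (PI tyB z y) j) *
      (∑ T ∈ (PI (fun p => tyS p ∨ tyI p) z y).powerset.filter (fun T => T.card ≤ K1),
        ∏ p ∈ T, (1 / (p : ℝ))) ≤
      ∑ T ∈ TF z y (2 * K2 + K1), ∏ p ∈ T, (1 / (p : ℝ)) := by
  set R := (PI (fun p => tyS p ∨ tyI p) z y).powerset.filter (fun T => T.card ≤ K1) with hR
  set Ω := (range (K2 + 1)).sigma fun j =>
    ((PI tyA z y).powersetCard j ×ˢ (PI tyB z y).powersetCard j) ×ˢ R with hΩ
  have e1 : (∑ j ∈ range (K2 + 1), Ej (fun p => 1 / (p : ℝ)) (PI tyA z y) j *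
      Ej (fun p => 1 / (p : ℝ)) (PI tyB z y) j) * (∑ T ∈ R, ∏ p ∈ T, (1 / (p : ℝ))) =
      ∑ x ∈ Ω, ((∏ p ∈ x.2.1.1, (1 / (p : ℝ))) * (∏ p ∈ x.2.1.2, (1 / (p : ℝ)))) *
        ∏ p ∈ x.2.2, (1 / (p : ℝ)) := by
    rw [hΩ, Finset.sum_sigma, Finset.sum_mul]
    refine Finset.sum_congr rfl fun j _ => ?_
    rw [Finset.sum_product, Finset.sum_product]
    unfold Ej
    rw [Finset.sum_mul_sum, Finset.sum_mul]
    refine Finset.sum_congr rfl fun a _ => ?_
    rw [Finset.sum_mul]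
    refine Finset.sum_congr rfl fun b _ => ?_
    rw [Finset.mul_sum]
  rw [e1]
  have hm : ∀ x ∈ Ω, (∀ p ∈ x.2.1.1, p ∈ PI tyA z y) ∧ x.2.1.1.card = x.1 ∧
      (∀ p ∈ x.2.1.2, p ∈ PI tyB z y) ∧ x.2.1.2.card = x.1 ∧
      (∀ p ∈ x.2.2, p ∈ PI (fun p => tyS p ∨ tyI p) z y) ∧ x.2.2.card ≤ K1 ∧ x.1 ≤ K2 := by
    intro x hx
    rw [hΩ, mem_sigma, mem_product, mem_product, mem_powersetCard, mem_powersetCard, hR,
      mem_filter, mem_powerset, mem_range] at hx
    obtain ⟨h1, ⟨⟨h2, h3⟩, h4, h5⟩, h6, h7⟩ := hx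
    exact ⟨fun p hp => h2 hp, h3, fun p hp => h4 hp, h5, fun p hp => h6 hp, h7, by omega⟩
  have hfA : ∀ x ∈ Ω, (x.2.1.1 ∪ x.2.1.2 ∪ x.2.2).filter tyA = x.2.1.1 := by
    intro x hx
    obtain ⟨h1, -, h2, -, h3, -, -⟩ := hm x hx
    ext p
    rw [mem_filter, mem_union, mem_union]
    constructor
    · rintro ⟨(h | h) | h, h4⟩
      · exact h
      · exact absurd (mem_PI.1 (h2 p h)).2.2.2 (nAB h4)
      · rcases (mem_PI.1 (h3 p h)).2.2.2 with h5 | h5
        · exact absurd h5 (nAS h4)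
        · exact absurd h5 (nAI h4)
    · intro h
      exact ⟨Or.inl (Or.inl h), (mem_PI.1 (h1 p h)).2.2.2⟩
  have hfB : ∀ x ∈ Ω, (x.2.1.1 ∪ x.2.1.2 ∪ x.2.2).filter tyB = x.2.1.2 := by
    intro x hx
    obtain ⟨h1, -, h2, -, h3, -, -⟩ := hm x hx
    ext p
    rw [mem_filter, mem_union, mem_union]
    constructor
    · rintro ⟨(h | h) | h, h4⟩
      · exact absurd h4 (nAB (mem_PI.1 (h1 p h)).2.2.2)
      · exact h
      · rcases (mem_PI.1 (h3 p h)).2.2.2 with h5 | h5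
        · exact absurd h5 (nBS h4)
        · exact absurd h5 (nBI h4)
    · intro h
      exact ⟨Or.inl (Or.inr h), (mem_PI.1 (h2 p h)).2.2.2⟩
  have hfR : ∀ x ∈ Ω, (x.2.1.1 ∪ x.2.1.2 ∪ x.2.2).filter (fun p => tyS p ∨ tyI p) = x.2.2 := by
    intro x hx
    obtain ⟨h1, -, h2, -, h3, -, -⟩ := hm x hx
    ext p
    rw [mem_filter, mem_union, mem_union]
    constructor
    · rintro ⟨(h | h) | h, h4⟩
      · have h5 := (mem_PI.1 (h1 p h)).2.2.2
        rcases h4 with h4 | h4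
        · exact absurd h4 (nAS h5)
        · exact absurd h4 (nAI h5)
      · have h5 := (mem_PI.1 (h2 p h)).2.2.2
        rcases h4 with h4 | h4
        · exact absurd h4 (nBS h5)
        · exact absurd h4 (nBI h5)
      · exact h
    · intro h
      exact ⟨Or.inr h, (mem_PI.1 (h3 p h)).2.2.2⟩
  have hinj : Set.InjOn (fun x : Σ _ : ℕ, (Finset ℕ × Finset ℕ) × Finset ℕ =>
      x.2.1.1 ∪ x.2.1.2 ∪ x.2.2) (Ω : Set _) := by
    intro x hx x' hx' h
    simp only at h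
    have a1 : x.2.1.1 = x'.2.1.1 := by rw [← hfA x hx, h, hfA x' hx']
    have a2 : x.2.1.2 = x'.2.1.2 := by rw [← hfB x hx, h, hfB x' hx']
    have a3 : x.2.2 = x'.2.2 := by rw [← hfR x hx, h, hfR x' hx']
    have a4 : x.1 = x'.1 := by rw [← (hm x hx).2.1, ← (hm x' hx').2.1, a1]
    obtain ⟨j, ⟨A, B⟩, C⟩ := x
    obtain ⟨j', ⟨A', B'⟩, C'⟩ := x'
    simp only at a1 a2 a3 a4
    subst a1 a2 a3 a4
    rfl
  have e2 : ∑ x ∈ Ω, ((∏ p ∈ x.2.1.1, (1 / (p : ℝ))) * (∏ p ∈ x.2.1.2, (1 / (p : ℝ)))) *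
        ∏ p ∈ x.2.2, (1 / (p : ℝ)) =
      ∑ T ∈ Ω.image (fun x : Σ _ : ℕ, (Finset ℕ × Finset ℕ) × Finset ℕ =>
        x.2.1.1 ∪ x.2.1.2 ∪ x.2.2), ∏ p ∈ (T : Finset ℕ), (1 / (p : ℝ)) := by
    rw [Finset.sum_image hinj]
    refine Finset.sum_congr rfl fun x hx => ?_
    have h1 := hfA x hx
    have h2 := hfB x hx
    have h3 := hfR x hx
    rw [Finset.prod_union, Finset.prod_union]
    · rw [Finset.disjoint_left]
      intro p hp hp'
      rw [← h1, mem_filter] at hp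
      rw [← h2, mem_filter] at hp'
      exact nAB hp.2 hp'.2
    · rw [Finset.disjoint_left]
      intro p hp hp'
      rw [← h3, mem_filter] at hp'
      rcases mem_union.1 hp with hp | hp
      · rw [← h1, mem_filter] at hp
        rcases hp'.2 with h | h
        · exact nAS hp.2 h
        · exact nAI hp.2 h
      · rw [← h2, mem_filter] at hp
        rcases hp'.2 with h | h
        · exact nBS hp.2 h
        · exact nBI hp.2 h
  rw [e2]
  refine Finset.sum_le_sum_of_subset_of_nonneg ?_ fun T _ _ =>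
    Finset.prod_nonneg fun p _ => by positivity
  intro T hT
  obtain ⟨x, hx, rfl⟩ := mem_image.1 hT
  rw [mem_TF]
  obtain ⟨h1, h2, h3, h4, h5, h6, h7⟩ := hm x hx
  refine ⟨?_, ?_, ?_⟩
  · intro p hp
    rcases mem_union.1 hp with hp | hp
    · rcases mem_union.1 hp with hp | hp
      · obtain ⟨g1, g2, g3, g4⟩ := mem_PI.1 (h1 p hp)
        exact ⟨g1, g2, g3, Or.inr (Or.inl g4)⟩
      · obtain ⟨g1, g2, g3, g4⟩ := mem_PI.1 (h3 p hp)
        exact ⟨g1, g2, g3, Or.inr (Or.inr (Or.inl g4))⟩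
    · obtain ⟨g1, g2, g3, g4⟩ := mem_PI.1 (h5 p hp)
      refine ⟨g1, g2, g3, ?_⟩
      tauto
  · rw [hfA x hx, hfB x hx, h2, h4]
  · refine (card_union_le _ _).trans ?_
    have := card_union_le x.2.1.1 x.2.1.2
    omega

end Pool.Agent.NH5.GC
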