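import Pool.Agent.NH5.GC.Low

/-!
# The lower bound for the number of the sets of the class, II
-/

set_option autoImplicit false

open scoped Classical

namespace Pool.Agent.NH5.GC

open Finset
open Pool.Agent.Y703.CX (jj XX)
open Pool.Agent.Y703.CQ.K302 (TT mem_TT)

/-- the class of the first additional prime -/
noncomputable def aa (T : Finset ℕ) : ℕ := if (T.filter fun p => p % 8 = 5).card % 2 = 0 then 1 else 5

/-- the class of the second additional prime -/
noncomputable def bb (e : ℕ) (T : Finset ℕ) : ℕ :=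
  if ((T.filter fun p => p % 8 = 3).card + 1) % 2 = e then 1 else 3

theorem aa_cases (T : Finset ℕ) : aa T = 1 ∨ aa T = 5 := by unfold aa; split_ifs <;> simp
theorem bb_cases (e : ℕ) (T : Finset ℕ) : bb e T = 1 ∨ bb e T = 3 := by unfold bb; split_ifs <;> simp

theorem card_ins {T : Finset ℕ} {p : ℕ} (hp : p ∉ T) (P : ℕ → Prop) [DecidablePred P] :
    ((insert p T).filter P).card = (T.filter P).card + if P p then 1 else 0 := by
  rw [Finset.filter_insert]
  split_ifs with h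
  · rw [Finset.card_insert_of_notMem fun h1 => hp (mem_filter.1 h1).1]
  · rfl

theorem bg_low : ∃ (c : ℝ) (Y₁ : ℕ), 0 < c ∧ ∀ X Y y₀ y₁ y z K k e : ℕ, Y₁ ≤ Y → Y ^ 8 ≤ X →
    y ≤ y₀ → y₀ ≤ y₁ → y₁ ≤ Y → z ≤ y₀ → (∀ T ∈ TF z y K, ∏ p ∈ T, p ≤ Y) → K + 3 ≤ k → e < 2 →
    (∀ a, a = 1 ∨ a = 5 → (1 : ℝ) ≤ ∑ p ∈ PI (fun p => p % 56 = a) y₀ y₁, 1 / (p : ℝ)) →
    (∀ a, a = 1 ∨ a = 3 → (1 : ℝ) ≤ ∑ p ∈ PI (fun p => p % 56 = a) y₁ Y, 1 / (p : ℝ)) →
    c * (X / Real.log X) * ∑ T ∈ TF z y K, ∏ p ∈ T, (1 / (p : ℝ)) ≤ ((BG X z k e).card : ℝ) := by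
  obtain ⟨c, Y₁, hc, hLP⟩ := card_LP 3 (by decide) (by norm_num)
  refine ⟨c, max Y₁ 2, hc, ?_⟩
  intro X Y y₀ y₁ y z K k e hY hYX hy0 hy01 hy1Y hzy hTY hk he hs1 hs2
  have hY1 : Y₁ ≤ Y := (le_max_left _ _).trans hY
  have hY2 : 2 ≤ Y := (le_max_right _ _).trans hY
  set Q1 : Finset ℕ → Finset ℕ := fun T => PI (fun p => p % 56 = aa T) y₀ y₁ with hQ1
  set Q2 : Finset ℕ → Finset ℕ := fun T => PI (fun p => p % 56 = bb e T) y₁ Y with hQ2
  set Q3 : Finset ℕ → ℕ × ℕ → Finset ℕ := fun T q =>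
    PI (fun p => p % 56 = 3) Y (X / ((∏ p ∈ T, p) * q.1 * q.2)) with hQ3
  set Ω : Finset (Σ _ : Finset ℕ, Σ _ : ℕ × ℕ, ℕ) :=
    (TF z y K).sigma fun T => (Q1 T ×ˢ Q2 T).sigma fun q => Q3 T q with hΩ
  have hm : ∀ x ∈ Ω, x.1 ∈ TF z y K ∧ x.2.1.1 ∈ Q1 x.1 ∧ x.2.1.2 ∈ Q2 x.1 ∧
      x.2.2 ∈ Q3 x.1 x.2.1 := by
    intro x hx
    rw [hΩ, mem_sigma, mem_sigma, mem_product] at hx
    exact ⟨hx.1, hx.2.1.1, hx.2.1.2, hx.2.2⟩
  have hX0 : (0 : ℝ) < X := by
    have : 0 < X := lt_of_lt_of_le (by positivity) hYX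
    exact_mod_cast this
  have hX1 : (1 : ℝ) ≤ X := by
    have : 1 ≤ X := by exact_mod_cast hX0
    exact_mod_cast this
  have hXl : 0 ≤ (X : ℝ) / Real.log X := div_nonneg hX0.le (Real.log_nonneg hX1)
  -- the lower bound for the index set
  have hlow : c * (X / Real.log X) * ∑ T ∈ TF z y K, ∏ p ∈ T, (1 / (p : ℝ)) ≤ (Ω.card : ℝ) := by
    rw [hΩ, Finset.card_sigma, Nat.cast_sum, Finset.mul_sum]
    refine Finset.sum_le_sum fun T hT => ?_
    rw [Finset.card_sigma, Nat.cast_sum, Finset.sum_product]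
    obtain ⟨g1, -, -⟩ := mem_TF.1 hT
    have hTpos : 0 < ∏ p ∈ T, p := one_le_prod fun p hp => (g1 p hp).2.2.1
    have hprod : ∏ p ∈ T, (1 / (p : ℝ)) = 1 / ((∏ p ∈ T, p : ℕ) : ℝ) := by
      rw [Finset.prod_div_distrib, Finset.prod_const_one]
      push_cast
      rfl
    have hw0 : (0 : ℝ) ≤ ∏ p ∈ T, (1 / (p : ℝ)) := Finset.prod_nonneg fun _ _ => by positivity
    have h1 : ∀ p₁ ∈ Q1 T, ∀ p₂ ∈ Q2 T, c * (X / Real.log X) * (∏ p ∈ T, (1 / (p : ℝ))) *
        (1 / (p₁ : ℝ)) * (1 / (p₂ : ℝ)) ≤ ((Q3 T (p₁, p₂)).card : ℝ) := by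
      intro p₁ hp₁ p₂ hp₂
      have a1 := mem_PI.1 hp₁
      have a2 := mem_PI.1 hp₂
      have hpos : 0 < (∏ p ∈ T, p) * p₁ * p₂ :=
        Nat.mul_pos (Nat.mul_pos hTpos a1.2.2.1.pos) a2.2.2.1.pos
      have hle : (∏ p ∈ T, p) * p₁ * p₂ ≤ Y ^ 3 := by
        calc (∏ p ∈ T, p) * p₁ * p₂ ≤ Y * Y * Y :=
              Nat.mul_le_mul (Nat.mul_le_mul (hTY T hT) (a1.1.trans hy1Y)) a2.1
          _ = Y ^ 3 := by ring
      refine le_trans (le_of_eq ?_) (hLP Y X ((∏ p ∈ T, p) * p₁ * p₂) hY1 hYX hpos hle)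
      rw [hprod]
      have n1 : (p₁ : ℝ) ≠ 0 := by exact_mod_cast a1.2.2.1.ne_zero
      have n2 : (p₂ : ℝ) ≠ 0 := by exact_mod_cast a2.2.2.1.ne_zero
      have n3 : (((∏ p ∈ T, p : ℕ) : ℝ)) ≠ 0 := by exact_mod_cast hTpos.ne'
      rw [Nat.cast_mul, Nat.cast_mul]
      field_simp
    have h2 := hs1 (aa T) (aa_cases T)
    have h3 := hs2 (bb e T) (bb_cases e T)
    calc c * (X / Real.log X) * ∏ p ∈ T, (1 / (p : ℝ)) ≤
          c * (X / Real.log X) * (∏ p ∈ T, (1 / (p : ℝ))) *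
            ((∑ p ∈ Q1 T, 1 / (p : ℝ)) * (∑ p ∈ Q2 T, 1 / (p : ℝ))) := by
          refine le_mul_of_one_le_right (by positivity) ?_
          exact one_le_mul_of_one_le_of_one_le h2 h3
      _ = ∑ p₁ ∈ Q1 T, ∑ p₂ ∈ Q2 T, c * (X / Real.log X) * (∏ p ∈ T, (1 / (p : ℝ))) *
            (1 / (p₁ : ℝ)) * (1 / (p₂ : ℝ)) := by
          rw [Finset.sum_mul_sum, Finset.mul_sum]
          refine Finset.sum_congr rfl fun a _ => ?_
          rw [Finset.mul_sum]
          refine Finset.sum_congr rfl fun b _ => ?_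
          ring
      _ ≤ _ := Finset.sum_le_sum fun a ha => Finset.sum_le_sum fun b hb => h1 a ha b hb
  refine hlow.trans ?_
  have hcard : Ω.card ≤ (BG X z k e).card := by
    refine Finset.card_le_card_of_injOn
      (fun x => insert x.2.2 (insert x.2.1.2 (insert x.2.1.1 x.1))) ?_ ?_
    · rintro ⟨T, ⟨p₁, p₂⟩, p₃⟩ hx
      obtain ⟨h1, h2, h3, h4⟩ := hm _ hx
      simp only at h1 h2 h3 h4
      obtain ⟨g1, g2, g3⟩ := mem_TF.1 h1
      obtain ⟨a1, a2, a3, a4⟩ := mem_PI.1 h2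
      obtain ⟨b1, b2, b3, b4⟩ := mem_PI.1 h3
      obtain ⟨c1, c2, c3, c4⟩ := mem_PI.1 h4
      simp only at a4 b4 c1 c4
      have n1 : p₁ ∉ T := fun h => by have := (g1 p₁ h).1; omega
      have n2 : p₂ ∉ insert p₁ T := by
        rw [mem_insert, not_or]
        exact ⟨by omega, fun h => by have := (g1 p₂ h).1; omega⟩
      have n3 : p₃ ∉ insert p₂ (insert p₁ T) := by
        rw [mem_insert, mem_insert, not_or, not_or]
        exact ⟨by omega, by omega, fun h => by have := (g1 p₃ h).1; omega⟩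
      have hTpos : 0 < ∏ p ∈ T, p := one_le_prod fun p hp => (g1 p hp).2.2.1
      have ca := aa_cases T
      have cb := bb_cases e T
      -- the types of the new primes
      have t1 : ¬ tyA p₁ ∧ ¬ tyB p₁ ∧ (tyS p₁ ∨ tyI p₁) ∧ ¬ p₁ % 8 = 3 ∧
          (p₁ % 8 = 5 ↔ aa T = 5) := by
        unfold tyA tyB tyS tyI
        omega
      have t2 : ¬ tyA p₂ ∧ ¬ tyB p₂ ∧ (tyS p₂ ∨ tyI p₂) ∧ ¬ p₂ % 8 = 5 ∧
          (p₂ % 8 = 3 ↔ bb e T = 3) := by
        unfold tyA tyB tyS tyI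
        omega
      have t3 : ¬ tyA p₃ ∧ ¬ tyB p₃ ∧ tyI p₃ ∧ ¬ p₃ % 8 = 5 ∧ p₃ % 8 = 3 := by
        unfold tyA tyB tyI
        omega
      show insert p₃ (insert p₂ (insert p₁ T)) ∈ ((BG X z k e : Finset (Finset ℕ)) : Set (Finset ℕ))
      rw [mem_coe]
      unfold BG
      rw [mem_filter]
      have hpr : ∀ q ∈ insert p₃ (insert p₂ (insert p₁ T)), q.Prime := by
        intro q hq
        rcases mem_insert.1 hq with rfl | hq
        · exact c3
        rcases mem_insert.1 hq with rfl | hq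
        · exact b3
        rcases mem_insert.1 hq with rfl | hq
        · exact a3
        · exact (g1 q hq).2.2.1
      refine ⟨mem_TT hpr ?_, ?_, ⟨?_, ?_, ?_, ?_, ?_⟩, ?_⟩
      · rw [prod_insert n3, prod_insert n2, prod_insert n1]
        have hpos : 0 < (∏ p ∈ T, p) * p₁ * p₂ := Nat.mul_pos (Nat.mul_pos hTpos a3.pos) b3.pos
        have := (Nat.le_div_iff_mul_le hpos).1 c1
        calc p₃ * (p₂ * (p₁ * ∏ p ∈ T, p)) = p₃ * ((∏ p ∈ T, p) * p₁ * p₂) := by ring
          _ ≤ X := this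
      · intro q hq
        rcases mem_insert.1 hq with rfl | hq
        · omega
        rcases mem_insert.1 hq with rfl | hq
        · omega
        rcases mem_insert.1 hq with rfl | hq
        · omega
        · exact (g1 q hq).2.1
      · intro q hq
        rcases mem_insert.1 hq with rfl | hq
        · exact Or.inr (Or.inr (Or.inr t3.2.2.1))
        rcases mem_insert.1 hq with rfl | hq
        · rcases t2.2.2.1 with h | h
          · exact Or.inl h
          · exact Or.inr (Or.inr (Or.inr h))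
        rcases mem_insert.1 hq with rfl | hq
        · rcases t1.2.2.1 with h | h
          · exact Or.inl h
          · exact Or.inr (Or.inr (Or.inr h))
        · exact (g1 q hq).2.2.2
      · rw [card_ins n3, card_ins n2, card_ins n1, card_ins n3, card_ins n2, card_ins n1,
          if_neg t3.1, if_neg t2.1, if_neg t1.1, if_neg t3.2.1, if_neg t2.2.1, if_neg t1.2.1, g2]
      · rw [card_ins n3, card_ins n2, card_ins n1, if_neg t3.2.2.2.1, if_neg t2.2.2.2.1]
        by_cases h5 : (T.filter fun p => p % 8 = 5).card % 2 = 0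
        · have e5 : aa T = 1 := by unfold aa; rw [if_pos h5]
          rw [if_neg fun h => by have := t1.2.2.2.2.1 h; omega]
          omega
        · have e5 : aa T = 5 := by unfold aa; rw [if_neg h5]
          rw [if_pos (t1.2.2.2.2.2 e5)]
          omega
      · rw [card_ins n3, card_ins n2, card_ins n1, if_pos t3.2.2.2.2, if_neg t1.2.2.2.1]
        by_cases h5 : ((T.filter fun p => p % 8 = 3).card + 1) % 2 = e
        · have e5 : bb e T = 1 := by unfold bb; rw [if_pos h5]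
          rw [if_neg fun h => by have := t2.2.2.2.2.1 h; omega]
          omega
        · have e5 : bb e T = 3 := by unfold bb; rw [if_neg h5]
          rw [if_pos (t2.2.2.2.2.2 e5)]
          omega
      · exact ⟨p₃, mem_insert_self _ _, t3.2.2.1⟩
      · rw [card_insert_of_notMem n3, card_insert_of_notMem n2, card_insert_of_notMem n1]
        omega
    · rintro ⟨T, ⟨p₁, p₂⟩, p₃⟩ hx ⟨T', ⟨p₁', p₂'⟩, p₃'⟩ hx' h
      obtain ⟨h1, h2, h3, h4⟩ := hm _ hx
      obtain ⟨h1', h2', h3', h4'⟩ := hm _ hx'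
      simp only at h1 h2 h3 h4 h1' h2' h3' h4' h
      obtain ⟨g1, g2, g3⟩ := mem_TF.1 h1
      obtain ⟨a1, a2, a3, a4⟩ := mem_PI.1 h2
      obtain ⟨b1, b2, b3, b4⟩ := mem_PI.1 h3
      obtain ⟨c1, c2, c3, c4⟩ := mem_PI.1 h4
      obtain ⟨g1', g2', g3'⟩ := mem_TF.1 h1'
      obtain ⟨a1', a2', a3', a4'⟩ := mem_PI.1 h2'
      obtain ⟨b1', b2', b3', b4'⟩ := mem_PI.1 h3'
      obtain ⟨c1', c2', c3', c4'⟩ := mem_PI.1 h4'
      have hmem : ∀ q, (q = p₃ ∨ q = p₂ ∨ q = p₁ ∨ q ∈ T) ↔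
          (q = p₃' ∨ q = p₂' ∨ q = p₁' ∨ q ∈ T') := by
        intro q
        have := Finset.ext_iff.1 h q
        simpa only [mem_insert] using this
      have e3 : p₃ = p₃' := by
        rcases (hmem p₃).1 (Or.inl rfl) with h5 | h5 | h5 | h5
        · exact h5
        · omega
        · omega
        · have := (g1' _ h5).1; omega
      have e2 : p₂ = p₂' := by
        rcases (hmem p₂).1 (Or.inr (Or.inl rfl)) with h5 | h5 | h5 | h5
        · omega
        · exact h5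
        · omega
        · have := (g1' _ h5).1; omega
      have e1 : p₁ = p₁' := by
        rcases (hmem p₁).1 (Or.inr (Or.inr (Or.inl rfl))) with h5 | h5 | h5 | h5
        · omega
        · omega
        · exact h5
        · have := (g1' _ h5).1; omega
      have e0 : T = T' := by
        ext q
        constructor
        · intro hq
          have hq1 := (g1 q hq).1
          rcases (hmem q).1 (Or.inr (Or.inr (Or.inr hq))) with h5 | h5 | h5 | h5
          · omega
          · omega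
          · omega
          · exact h5
        · intro hq
          have hq1 := (g1' q hq).1
          rcases (hmem q).2 (Or.inr (Or.inr (Or.inr hq))) with h5 | h5 | h5 | h5
          · omega
          · omega
          · omega
          · exact h5
      subst e0 e1 e2 e3
      rfl
  exact_mod_cast hcard

end Pool.Agent.NH5.GC
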